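import Mathlib

/-! # Random colourings with independent colours: the definitions -/

open Finset

namespace Pool.Agent.U180.SR

/-- the edges of the complete graph on `Fin N` -/
abbrev Edge (N : ℕ) : Type := {e : Fin N × Fin N // e.1 < e.2}

open Classical in
/-- the probability of the event `P` when the colours of the edges are independent and the edge `e`
has colour `a` with probability `p e a` -/
noncomputable def Pr {N q : ℕ} (p : Edge N → Fin q → ℝ) (P : (Edge N → Fin q) → Prop) : ℝ :=
  ∑ c : Edge N → Fin q, (∏ e, p e (c e)) * (if P c then 1 else 0)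

/-- the numbers `p e a` are probabilities of the colours `a` of the edges `e`, all at least `δ` -/
structure IsLaw {N q : ℕ} (δ : ℝ) (p : Edge N → Fin q → ℝ) : Prop where
  ge : ∀ e a, δ ≤ p e a
  sum_eq : ∀ e, ∑ a, p e a = 1

/-- all edges inside `S` have colour `a` -/
def MonoIn {N q : ℕ} (c : Edge N → Fin q) (a : Fin q) (S : Finset (Fin N)) : Prop :=
  ∀ e : Edge N, e.1.1 ∈ S → e.1.2 ∈ S → c e = a

/-- the cost `- log p` of colour `a` at a pair of vertices (zero for equal vertices) -/
noncomputable def cst {N q : ℕ} (p : Edge N → Fin q → ℝ) (a : Fin q) (v u : Fin N) : ℝ :=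
  if h : v < u then -Real.log (p ⟨(v, u), h⟩ a) else
    if h : u < v then -Real.log (p ⟨(u, v), h⟩ a) else 0

/-- the energy of a measure: the mean cost of two independent random vertices -/
noncomputable def En {V : Type*} [Fintype V] (l : V → V → ℝ) (ν : V → ℝ) : ℝ :=
  ∑ v, ∑ u, ν v * ν u * l v u

/-- the largest mean over the colours of `- log` of the probability, when all the `q` probabilities
are at least `δ` -/
noncomputable def maxCost (q : ℕ) (δ : ℝ) : ℝ :=
  -(((q : ℝ) - 1) * Real.log δ + Real.log (1 - ((q : ℝ) - 1) * δ)) / q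

/-- the numbers `N` such that every colouring of the edges of `K_N` with independent random colours,
all the probabilities being at least `δ`, has a monochromatic `K_k` with probability at least `θ` -/
def NoisySet (q : ℕ) (δ θ : ℝ) (k : ℕ) : Set ℕ :=
  {N : ℕ | ∀ p : Edge N → Fin q → ℝ, IsLaw δ p →
    θ ≤ Pr p (fun c => ∃ (a : Fin q) (S : Finset (Fin N)), S.card = k ∧ MonoIn c a S)}

/-- the Ramsey number of noisy colourings -/
noncomputable def noisyRamsey (q : ℕ) (δ θ : ℝ) (k : ℕ) : ℕ := sInf (NoisySet q δ θ k)

end Pool.Agent.U180.SR
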