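import Mathlib

/-! # Sums over product weights -/

open Finset

set_option linter.unusedSectionVars false

namespace Pool.Agent.U180.SR

section gen
variable {ι α : Type*} [Fintype ι] [DecidableEq ι] [Fintype α] [DecidableEq α]

/-- product weights: the sum of a product of one-coordinate functions -/
lemma sum_prod_mul (w g : ι → α → ℝ) :
    ∑ x : ι → α, (∏ i, w i (x i)) * ∏ i, g i (x i) = ∏ i, ∑ a, w i a * g i a := by
  rw [Finset.prod_univ_sum, Fintype.piFinset_univ]
  refine Finset.sum_congr rfl fun x _ => ?_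
  rw [Finset.prod_mul_distrib]

lemma sum_prod_one (w : ι → α → ℝ) (hw : ∀ i, ∑ a, w i a = 1) :
    ∑ x : ι → α, (∏ i, w i (x i)) = 1 := by
  have h := sum_prod_mul w (fun _ _ => (1 : ℝ))
  simp only [Finset.prod_const_one, mul_one] at h
  rw [h]
  simp [hw]

/-- the probability of prescribed values in the coordinates of `A` -/
lemma sum_prod_fix (w : ι → α → ℝ) (hw : ∀ i, ∑ a, w i a = 1) (A : Finset ι) (y : ι → α) :
    ∑ x : ι → α, (∏ i, w i (x i)) * (if ∀ i ∈ A, x i = y i then (1 : ℝ) else 0)
      = ∏ i ∈ A, w i (y i) := by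
  have h1 : ∀ x : ι → α, (if ∀ i ∈ A, x i = y i then (1 : ℝ) else 0)
      = ∏ i, (if i ∈ A then (if x i = y i then (1 : ℝ) else 0) else 1) := by
    intro x
    rw [Finset.prod_ite_mem, Finset.univ_inter, Finset.prod_ite_zero]
    simp
  simp_rw [h1]
  rw [sum_prod_mul w (fun i a => if i ∈ A then (if a = y i then (1 : ℝ) else 0) else 1)]
  have h2 : ∀ i, ∑ a, w i a * (if i ∈ A then (if a = y i then (1 : ℝ) else 0) else 1)
      = if i ∈ A then w i (y i) else 1 := by
    intro i
    by_cases hi : i ∈ A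
    · simp [hi]
    · simp [hi, hw]
  simp_rw [h2]
  rw [Finset.prod_ite_mem, Finset.univ_inter]

/-- resampling one coordinate -/
lemma resample (w : ι → α → ℝ) (hw : ∀ i, ∑ a, w i a = 1) (l : ι) (F : (ι → α) → ℝ) :
    ∑ x : ι → α, (∏ i, w i (x i)) * F x
      = ∑ x : ι → α, (∏ i, w i (x i)) * ∑ u, w l u * F (Function.update x l u) := by
  have key : ∀ G : (ι → α) → ℝ, ∑ x : ι → α, (∏ i, w i (x i)) * G x
      = ∑ y : ({j // j ≠ l} → α), ∑ a, w l a * ((∏ j : {j // j ≠ l}, w j (y j)) *
          G ((Equiv.funSplitAt l α).symm (a, y))) := by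
    intro G
    rw [← (Equiv.funSplitAt l α).symm.sum_comp]
    rw [Fintype.sum_prod_type, Finset.sum_comm]
    refine Finset.sum_congr rfl fun y _ => Finset.sum_congr rfl fun a _ => ?_
    rw [Fintype.prod_eq_mul_prod_subtype_ne _ l]
    have e1 : (Equiv.funSplitAt l α).symm (a, y) l = a := by
      simp [Equiv.funSplitAt, Equiv.piSplitAt]
    have e2 : ∀ j : {j // j ≠ l}, (Equiv.funSplitAt l α).symm (a, y) j = y j := by
      intro j
      simp [Equiv.funSplitAt, Equiv.piSplitAt, j.2]
    rw [e1]
    simp_rw [e2]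
    ring
  rw [key F, key]
  refine Finset.sum_congr rfl fun y _ => ?_
  have e3 : ∀ a u, Function.update ((Equiv.funSplitAt l α).symm (a, y)) l u
      = (Equiv.funSplitAt l α).symm (u, y) := by
    intro a u
    funext j
    by_cases hj : j = l
    · subst hj
      simp [Equiv.funSplitAt, Equiv.piSplitAt]
    · simp [Equiv.funSplitAt, Equiv.piSplitAt, hj]
  simp_rw [e3]
  have e4 : ∀ a, w l a * ((∏ j : {j // j ≠ l}, w j (y j)) *
        ∑ u, w l u * F ((Equiv.funSplitAt l α).symm (u, y)))
      = w l a * ∑ u, w l u * ((∏ j : {j // j ≠ l}, w j (y j)) *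
        F ((Equiv.funSplitAt l α).symm (u, y))) := by
    intro a
    congr 1
    rw [Finset.mul_sum]
    refine Finset.sum_congr rfl fun u _ => ?_
    ring
  simp_rw [e4]
  rw [← Finset.sum_mul, hw l, one_mul]

end gen

section iid
variable {V : Type*} [Fintype V] [DecidableEq V] {k : ℕ}

/-- second moment of the sum of the centred costs at one index -/
lemma second_moment (π : V → ℝ) (hπ0 : ∀ v, 0 ≤ π v) (hπ : ∑ v, π v = 1)
    (f : V → V → ℝ) (hf : ∀ v, ∑ u, π u * f v u = 0) {L : ℝ} (hL : ∀ u v, |f u v| ≤ L) (i : Fin k) :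
    ∑ x : Fin k → V, (∏ j, π (x j)) * (∑ j ∈ univ.erase i, f (x i) (x j)) ^ 2
      ≤ ((k : ℝ) - 1) * L ^ 2 := by
  have hw : ∀ _i : Fin k, ∑ a, π a = 1 := fun _ => hπ
  have hexp : ∀ x : Fin k → V, (∏ j, π (x j)) * (∑ j ∈ univ.erase i, f (x i) (x j)) ^ 2
      = ∑ j ∈ univ.erase i, ∑ l ∈ univ.erase i, (∏ j, π (x j)) * (f (x i) (x j) * f (x i) (x l)) := by
    intro x
    rw [sq, Finset.sum_mul_sum, Finset.mul_sum]
    refine Finset.sum_congr rfl fun j _ => ?_
    rw [Finset.mul_sum]
  simp_rw [hexp]
  rw [Finset.sum_comm]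
  have hstep : ∀ j ∈ (univ : Finset (Fin k)).erase i,
      ∑ x : Fin k → V, ∑ l ∈ univ.erase i, (∏ j, π (x j)) * (f (x i) (x j) * f (x i) (x l))
        ≤ L ^ 2 := by
    intro j hj
    rw [Finset.sum_comm]
    rw [Finset.sum_eq_single_of_mem j hj]
    · calc ∑ x : Fin k → V, (∏ j, π (x j)) * (f (x i) (x j) * f (x i) (x j))
          ≤ ∑ x : Fin k → V, (∏ j, π (x j)) * L ^ 2 := by
            refine Finset.sum_le_sum fun x _ => ?_
            refine mul_le_mul_of_nonneg_left ?_ (Finset.prod_nonneg fun j _ => hπ0 _)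
            have := hL (x i) (x j)
            calc f (x i) (x j) * f (x i) (x j) = |f (x i) (x j)| ^ 2 := by rw [sq_abs]; ring
              _ ≤ L ^ 2 := pow_le_pow_left₀ (abs_nonneg _) this 2
        _ = L ^ 2 := by
            rw [← Finset.sum_mul, sum_prod_one (fun _ => π) hw, one_mul]
    · intro l hl hlj
      have hli : l ≠ i := (Finset.mem_erase.mp hl).1
      rw [resample (fun _ => π) hw l (fun x => f (x i) (x j) * f (x i) (x l))]
      refine Finset.sum_eq_zero fun x _ => ?_
      have : ∑ u, π u * (f (Function.update x l u i) (Function.update x l u j) *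
          f (Function.update x l u i) (Function.update x l u l)) = 0 := by
        have e : ∀ u, π u * (f (Function.update x l u i) (Function.update x l u j) *
          f (Function.update x l u i) (Function.update x l u l))
            = f (x i) (x j) * (π u * f (x i) u) := by
          intro u
          rw [Function.update_of_ne hli.symm, Function.update_of_ne (Ne.symm hlj),
            Function.update_self]
          ring
        simp_rw [e]
        rw [← Finset.mul_sum, hf, mul_zero]
      rw [this, mul_zero]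
  calc _ ≤ ∑ j ∈ (univ : Finset (Fin k)).erase i, L ^ 2 := Finset.sum_le_sum hstep
    _ = ((k : ℝ) - 1) * L ^ 2 := by
        rw [Finset.sum_const, Finset.card_erase_of_mem (Finset.mem_univ i), Finset.card_univ,
          Fintype.card_fin, nsmul_eq_mul, Nat.cast_sub]
        · simp
        · have := i.2
          omega

end iid

end Pool.Agent.U180.SR
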