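import Mathlib
import Pool.Agent.U180.SR.Prod
import Pool.Agent.U180.SR.Defs

/-! # Random colourings: the events that sets are monochromatic -/

open Finset

set_option linter.unusedSectionVars false

namespace Pool.Agent.U180.SR

variable {N q : ℕ}

/-- the edges inside `J` -/
def inE (J : Finset (Fin N)) : Finset (Edge N) := univ.filter fun e => e.1.1 ∈ J ∧ e.1.2 ∈ J

lemma inE_inter (S T : Finset (Fin N)) : inE S ∩ inE T = inE (S ∩ T) := by
  ext e
  simp only [inE, Finset.mem_inter, Finset.mem_filter, Finset.mem_univ, true_and]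
  tauto

lemma monoIn_iff (c : Edge N → Fin q) (a : Fin q) (S : Finset (Fin N)) :
    MonoIn c a S ↔ ∀ e ∈ inE S, c e = a := by
  unfold MonoIn inE
  simp only [Finset.mem_filter, Finset.mem_univ, true_and]
  constructor
  · intro h e he; exact h e he.1 he.2
  · intro h e h1 h2; exact h e ⟨h1, h2⟩

lemma cst_symm (p : Edge N → Fin q → ℝ) (a : Fin q) (v u : Fin N) : cst p a v u = cst p a u v := by
  unfold cst
  rcases lt_trichotomy v u with h | h | h
  · simp [h, not_lt.mpr h.le]
  · subst h; simp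
  · simp [h, not_lt.mpr h.le]

lemma cst_diag (p : Edge N → Fin q → ℝ) (a : Fin q) (v : Fin N) : cst p a v v = 0 := by
  simp [cst]

lemma cst_nonneg {p : Edge N → Fin q → ℝ} {a : Fin q} (h0 : ∀ e, 0 ≤ p e a) (h1 : ∀ e, p e a ≤ 1)
    (v u : Fin N) : 0 ≤ cst p a v u := by
  unfold cst
  split_ifs with h h'
  · have := Real.log_nonpos (h0 ⟨(v, u), h⟩) (h1 _); linarith
  · have := Real.log_nonpos (h0 ⟨(u, v), h'⟩) (h1 _); linarith
  · exact le_rfl

lemma cst_le {p : Edge N → Fin q → ℝ} {a : Fin q} {L : ℝ} (hL : 0 ≤ L)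
    (h : ∀ e, -Real.log (p e a) ≤ L) (v u : Fin N) : cst p a v u ≤ L := by
  unfold cst
  split_ifs with h1 h2
  · exact h _
  · exact h _
  · exact hL

lemma sum_half (p : Edge N → Fin q → ℝ) (a : Fin q) (J : Finset (Fin N)) :
    ∑ x ∈ (J ×ˢ J).filter (fun x => x.1 < x.2), cst p a x.1 x.2
      = ∑ e ∈ inE J, -Real.log (p e a) := by
  symm
  refine Finset.sum_bij (fun e _ => e.1) ?_ ?_ ?_ ?_
  · intro e he
    simp only [inE, Finset.mem_filter, Finset.mem_univ, true_and] at he
    simp only [Finset.mem_filter, Finset.mem_product]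
    exact ⟨he, e.2⟩
  · intro e _ e' _ h
    exact Subtype.ext h
  · intro x hx
    simp only [Finset.mem_filter, Finset.mem_product] at hx
    refine ⟨⟨x, hx.2⟩, ?_, rfl⟩
    simp only [inE, Finset.mem_filter, Finset.mem_univ, true_and]
    exact hx.1
  · intro e _
    simp [cst, e.2]

lemma sum_cst (p : Edge N → Fin q → ℝ) (a : Fin q) (J : Finset (Fin N)) :
    ∑ v ∈ J, ∑ u ∈ J, cst p a v u = 2 * ∑ e ∈ inE J, -Real.log (p e a) := by
  rw [← Finset.sum_product']
  have hsplit : ∑ x ∈ J ×ˢ J, cst p a x.1 x.2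
      = ∑ x ∈ (J ×ˢ J).filter (fun x => x.1 < x.2), cst p a x.1 x.2
        + ∑ x ∈ (J ×ˢ J).filter (fun x => x.2 < x.1), cst p a x.1 x.2 := by
    rw [Finset.sum_filter, Finset.sum_filter, ← Finset.sum_add_distrib]
    refine Finset.sum_congr rfl fun x _ => ?_
    rcases lt_trichotomy x.1 x.2 with h | h | h
    · simp [h, not_lt.mpr h.le]
    · rw [h]; simp [cst_diag]
    · simp [h, not_lt.mpr h.le]
  have hsw : ∑ x ∈ (J ×ˢ J).filter (fun x => x.2 < x.1), cst p a x.1 x.2
      = ∑ x ∈ (J ×ˢ J).filter (fun x => x.1 < x.2), cst p a x.1 x.2 := by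
    refine Finset.sum_bij (fun x _ => (x.2, x.1)) ?_ ?_ ?_ ?_
    · intro x hx
      simp only [Finset.mem_filter, Finset.mem_product] at hx ⊢
      tauto
    · intro x _ y _ h
      simp only [Prod.mk.injEq] at h
      exact Prod.ext h.2 h.1
    · intro x hx
      simp only [Finset.mem_filter, Finset.mem_product] at hx
      refine ⟨(x.2, x.1), ?_, rfl⟩
      simp only [Finset.mem_filter, Finset.mem_product]
      tauto
    · intro x _
      exact cst_symm _ _ _ _
  rw [hsplit, hsw, sum_half]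
  ring

lemma prod_inE {p : Edge N → Fin q → ℝ} {a : Fin q} (h0 : ∀ e, 0 < p e a) (J : Finset (Fin N)) :
    ∏ e ∈ inE J, p e a = Real.exp (-(∑ v ∈ J, ∑ u ∈ J, cst p a v u) / 2) := by
  rw [sum_cst]
  have : -(2 * ∑ e ∈ inE J, -Real.log (p e a)) / 2 = ∑ e ∈ inE J, Real.log (p e a) := by
    rw [Finset.sum_neg_distrib]; ring
  rw [this, Real.exp_sum]
  exact Finset.prod_congr rfl fun e _ => (Real.exp_log (h0 e)).symm

open Classical in
/-- the probability that two sets are monochromatic -/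
lemma pr_two {p : Edge N → Fin q → ℝ} (hp : ∀ e, ∑ a, p e a = 1) (a : Fin q)
    (S T : Finset (Fin N)) :
    ∑ c : Edge N → Fin q, (∏ e, p e (c e)) *
      ((if MonoIn c a S then (1 : ℝ) else 0) * (if MonoIn c a T then (1 : ℝ) else 0))
      = ∏ e ∈ inE S ∪ inE T, p e a := by
  rw [← sum_prod_fix p hp (inE S ∪ inE T) (fun _ => a)]
  refine Finset.sum_congr rfl fun c _ => ?_
  congr 1
  by_cases h1 : MonoIn c a S
  · by_cases h2 : MonoIn c a T
    · have : ∀ i ∈ inE S ∪ inE T, c i = a := by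
        intro i hi
        rcases Finset.mem_union.mp hi with h | h
        · exact (monoIn_iff c a S).mp h1 i h
        · exact (monoIn_iff c a T).mp h2 i h
      rw [if_pos h1, if_pos h2, if_pos this, mul_one]
    · have : ¬ ∀ i ∈ inE S ∪ inE T, c i = a := by
        intro h
        exact h2 ((monoIn_iff c a T).mpr fun e he => h e (Finset.mem_union_right _ he))
      rw [if_neg h2, if_neg this, mul_zero]
  · have : ¬ ∀ i ∈ inE S ∪ inE T, c i = a := by
      intro h
      exact h1 ((monoIn_iff c a S).mpr fun e he => h e (Finset.mem_union_left _ he))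
    rw [if_neg h1, if_neg this, zero_mul]

open Classical in
lemma pr_one {p : Edge N → Fin q → ℝ} (hp : ∀ e, ∑ a, p e a = 1) (a : Fin q)
    (S : Finset (Fin N)) :
    ∑ c : Edge N → Fin q, (∏ e, p e (c e)) * (if MonoIn c a S then (1 : ℝ) else 0)
      = ∏ e ∈ inE S, p e a := by
  have h := pr_two hp a S S
  rw [Finset.union_idempotent] at h
  rw [← h]
  refine Finset.sum_congr rfl fun c _ => ?_
  congr 1
  split_ifs <;> simp

lemma pair_ratio {p : Edge N → Fin q → ℝ} {a : Fin q} (h0 : ∀ e, 0 < p e a) (S T : Finset (Fin N)) :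
    (∏ e ∈ inE S ∪ inE T, p e a) / ((∏ e ∈ inE S, p e a) * ∏ e ∈ inE T, p e a)
      = Real.exp ((∑ v ∈ S ∩ T, ∑ u ∈ S ∩ T, cst p a v u) / 2) := by
  have h1 := Finset.prod_union_inter (s₁ := inE S) (s₂ := inE T) (f := fun e => p e a)
  have hpos : ∀ A : Finset (Edge N), 0 < ∏ e ∈ A, p e a := fun A => Finset.prod_pos fun e _ => h0 e
  rw [← h1, inE_inter, prod_inE h0 (S ∩ T)]
  have hne : (∏ e ∈ inE S ∪ inE T, p e a) ≠ 0 := (hpos _).ne'
  rw [div_mul_eq_div_div, div_self hne, one_div, ← Real.exp_neg]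
  congr 1
  ring

end Pool.Agent.U180.SR
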