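import Mathlib
import Pool.Agent.U180.SR.Defs

/-! # Measures of nearly minimal energy have bounded potential -/

open Finset

namespace Pool.Agent.U180.SR

section energy
variable {V : Type*} [Fintype V]

/-- the potential of a measure -/
noncomputable def Pot (l : V → V → ℝ) (ν : V → ℝ) (v : V) : ℝ := ∑ u, ν u * l v u

lemma En_eq (l : V → V → ℝ) (ν : V → ℝ) : En l ν = ∑ v, ν v * Pot l ν v := by
  unfold En Pot
  refine Finset.sum_congr rfl fun v _ => ?_
  rw [Finset.mul_sum]
  exact Finset.sum_congr rfl fun u _ => by ring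

lemma En_nonneg {l : V → V → ℝ} (h0 : ∀ u v, 0 ≤ l u v) {ν : V → ℝ} (hν : ∀ v, 0 ≤ ν v) :
    0 ≤ En l ν :=
  Finset.sum_nonneg fun v _ => Finset.sum_nonneg fun u _ =>
    mul_nonneg (mul_nonneg (hν v) (hν u)) (h0 v u)

lemma Pot_nonneg {l : V → V → ℝ} (h0 : ∀ u v, 0 ≤ l u v) {ν : V → ℝ} (hν : ∀ v, 0 ≤ ν v) (v : V) :
    0 ≤ Pot l ν v :=
  Finset.sum_nonneg fun u _ => mul_nonneg (hν u) (h0 v u)

lemma Pot_le {l : V → V → ℝ} {L : ℝ} (h1 : ∀ u v, l u v ≤ L) {ν : V → ℝ} (hν : ∀ v, 0 ≤ ν v)
    (hs : ∑ v, ν v = 1) (v : V) : Pot l ν v ≤ L := by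
  calc Pot l ν v ≤ ∑ u, ν u * L :=
        Finset.sum_le_sum fun u _ => mul_le_mul_of_nonneg_left (h1 v u) (hν u)
    _ = L := by rw [← Finset.sum_mul, hs, one_mul]

lemma En_le {l : V → V → ℝ} {L : ℝ} (h1 : ∀ u v, l u v ≤ L) {ν : V → ℝ} (hν : ∀ v, 0 ≤ ν v)
    (hs : ∑ v, ν v = 1) : En l ν ≤ L := by
  rw [En_eq]
  calc ∑ v, ν v * Pot l ν v ≤ ∑ v, ν v * L :=
        Finset.sum_le_sum fun v _ => mul_le_mul_of_nonneg_left (Pot_le h1 hν hs v) (hν v)
    _ = L := by rw [← Finset.sum_mul, hs, one_mul]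

open Classical in
/-- one step -/
lemma step {l : V → V → ℝ} {L m0 ε : ℝ} (hL : 0 < L) (hε : 0 < ε) (hεL : ε ≤ L) (hm0 : m0 ≤ L)
    (hsym : ∀ u v, l u v = l v u) (h0 : ∀ u v, 0 ≤ l u v) (h1 : ∀ u v, l u v ≤ L)
    {ν : V → ℝ} (hν : ∀ v, 0 ≤ ν v) (hs : ∑ v, ν v = 1) (hE : En l ν ≤ m0) :
    (∃ π : V → ℝ, (∀ v, 0 ≤ π v) ∧ ∑ v, π v = 1 ∧ (∀ v, π v ≤ 2 * ν v) ∧
      ∀ v, π v ≠ 0 → Pot l π v ≤ m0 + 3 * ε) ∨
    (∃ π : V → ℝ, (∀ v, 0 ≤ π v) ∧ ∑ v, π v = 1 ∧ (∀ v, π v ≤ 2 * ν v) ∧
      En l π ≤ En l ν - ε ^ 2 / (2 * L)) := by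
  have hE0 : 0 ≤ En l ν := En_nonneg h0 hν
  set B : Finset V := univ.filter fun v => m0 + ε < Pot l ν v with hB
  set a : ℝ := ∑ v ∈ B, ν v with ha
  have ha0 : 0 ≤ a := Finset.sum_nonneg fun v _ => hν v
  set b : ℝ := ε / (2 * L) with hb
  have hb0 : 0 < b := by positivity
  have hb2 : b ≤ 1 / 2 := by
    rw [hb, div_le_iff₀ (by positivity)]
    linarith
  have hbL : b * L = ε / 2 := by
    rw [hb]; field_simp
  by_cases hab : a < b
  · left
    have h1a : 1 / 2 ≤ 1 - a := by linarith
    refine ⟨fun v => if v ∈ B then 0 else ν v / (1 - a), ?_, ?_, ?_, ?_⟩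
    · intro v
      by_cases hv : v ∈ B
      · simp [hv]
      · simp only [hv, if_false]
        exact div_nonneg (hν v) (by linarith)
    · have e1 : ∑ v, (if v ∈ B then 0 else ν v / (1 - a)) = (∑ v, if v ∈ B then 0 else ν v) / (1 - a) := by
        rw [Finset.sum_div]
        refine Finset.sum_congr rfl fun v _ => ?_
        split_ifs <;> simp
      rw [e1]
      have e2 : ∑ v, (if v ∈ B then 0 else ν v) = 1 - a := by
        have : ∑ v, ν v = ∑ v, ((if v ∈ B then ν v else 0) + (if v ∈ B then 0 else ν v)) := by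
          refine Finset.sum_congr rfl fun v _ => ?_
          split_ifs <;> simp
        rw [hs, Finset.sum_add_distrib, Finset.sum_ite_mem, Finset.univ_inter] at this
        linarith
      rw [e2]
      exact div_self (by linarith)
    · intro v
      by_cases hv : v ∈ B
      · simp only [hv, if_true]
        linarith [hν v]
      · simp only [hv, if_false]
        rw [div_le_iff₀ (by linarith)]
        nlinarith [hν v]
    · intro v hv
      have hvB : v ∉ B := by
        intro h
        exact hv (by simp [h])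
      have hPv : Pot l ν v ≤ m0 + ε := by
        by_contra hcon
        exact hvB (by rw [hB, Finset.mem_filter]; exact ⟨Finset.mem_univ _, not_le.mp hcon⟩)
      have hle : Pot l (fun v => if v ∈ B then 0 else ν v / (1 - a)) v ≤ Pot l ν v / (1 - a) := by
        unfold Pot
        rw [Finset.sum_div]
        refine Finset.sum_le_sum fun u _ => ?_
        by_cases hu : u ∈ B
        · simp only [hu, if_true, zero_mul]
          exact div_nonneg (mul_nonneg (hν u) (h0 v u)) (by linarith)
        · simp only [hu, if_false]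
          rw [div_mul_eq_mul_div]
      refine hle.trans ?_
      rw [div_le_iff₀ (by linarith)]
      have h2 : a * (m0 + 3 * ε) ≤ 2 * ε := by
        have : a * (m0 + 3 * ε) ≤ b * (4 * L) := by
          have hm : m0 + 3 * ε ≤ 4 * L := by linarith
          have hm' : 0 ≤ m0 + 3 * ε := by linarith
          exact mul_le_mul hab.le hm hm' hb0.le
        nlinarith
      nlinarith
  · right
    push Not at hab
    have ha1 : 0 < a := lt_of_lt_of_le hb0 hab
    set t : ℝ := b / a with ht
    have ht0 : 0 < t := by positivity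
    have ht1 : t ≤ 1 := by
      rw [ht, div_le_one ha1]; exact hab
    have hta : t * a = b := by
      rw [ht]; field_simp
    have h1b : 1 / 2 ≤ 1 - b := by linarith
    set φ : V → ℝ := fun v => if v ∈ B then 1 - t else 1 with hφ
    have hφ0 : ∀ v, 0 ≤ φ v := by
      intro v; simp only [hφ]; split_ifs <;> linarith
    have hφ1 : ∀ v, φ v ≤ 1 := by
      intro v; simp only [hφ]; split_ifs <;> linarith
    refine ⟨fun v => ν v * φ v / (1 - b), ?_, ?_, ?_, ?_⟩
    · intro v
      exact div_nonneg (mul_nonneg (hν v) (hφ0 v)) (by linarith)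
    · rw [← Finset.sum_div]
      have : ∑ v, ν v * φ v = 1 - b := by
        have e : ∀ v, ν v * φ v = ν v - t * (if v ∈ B then ν v else 0) := by
          intro v; simp only [hφ]; split_ifs <;> ring
        simp_rw [e]
        rw [Finset.sum_sub_distrib, hs, ← Finset.mul_sum, Finset.sum_ite_mem, Finset.univ_inter,
          ← ha, hta]
      rw [this]
      exact div_self (by linarith)
    · intro v
      rw [div_le_iff₀ (by linarith)]
      have : ν v * φ v ≤ ν v := by
        have := mul_le_mul_of_nonneg_left (hφ1 v) (hν v)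
        linarith
      nlinarith [hν v]
    · have e1 : En l (fun v => ν v * φ v / (1 - b)) = (∑ v, ∑ u, (ν v * φ v) * (ν u * φ u) * l v u) / (1 - b) ^ 2 := by
        unfold En
        rw [Finset.sum_div]
        refine Finset.sum_congr rfl fun v _ => ?_
        rw [Finset.sum_div]
        refine Finset.sum_congr rfl fun u _ => ?_
        field_simp
      have e2 : ∑ v, ∑ u, (ν v * φ v) * (ν u * φ u) * l v u
          ≤ En l ν - 2 * b * (m0 + ε) + b ^ 2 * L := by
        have hexp : ∀ v u, (ν v * φ v) * (ν u * φ u) * l v u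
            = ν v * ν u * l v u - t * ((if v ∈ B then ν v else 0) * (ν u * l v u))
              - t * ((if u ∈ B then ν u else 0) * (ν v * l u v))
              + t ^ 2 * ((if v ∈ B then ν v else 0) * ((if u ∈ B then ν u else 0) * l v u)) := by
          intro v u
          rw [hsym u v]
          simp only [hφ]
          split_ifs <;> ring
        simp_rw [hexp]
        simp only [Finset.sum_add_distrib, Finset.sum_sub_distrib]
        have s1 : ∑ v, ∑ u, t * ((if v ∈ B then ν v else 0) * (ν u * l v u))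
            = t * ∑ v ∈ B, ν v * Pot l ν v := by
          have e : ∀ v, ∑ u, t * ((if v ∈ B then ν v else 0) * (ν u * l v u))
              = t * (if v ∈ B then ν v * Pot l ν v else 0) := by
            intro v
            rw [← Finset.mul_sum, ← Finset.mul_sum]
            unfold Pot
            split_ifs <;> simp
          simp_rw [e]
          rw [← Finset.mul_sum, Finset.sum_ite_mem, Finset.univ_inter]
        have s2 : ∑ v, ∑ u, t * ((if u ∈ B then ν u else 0) * (ν v * l u v))
            = t * ∑ v ∈ B, ν v * Pot l ν v := by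
          rw [Finset.sum_comm]; exact s1
        have s3 : ∑ v, ∑ u, t ^ 2 * ((if v ∈ B then ν v else 0) * ((if u ∈ B then ν u else 0) * l v u))
            ≤ t ^ 2 * (a ^ 2 * L) := by
          have hβ : ∀ v, 0 ≤ (if v ∈ B then ν v else 0) := by
            intro v; split_ifs
            · exact hν v
            · exact le_rfl
          calc ∑ v, ∑ u, t ^ 2 * ((if v ∈ B then ν v else 0) * ((if u ∈ B then ν u else 0) * l v u))
              ≤ ∑ v, ∑ u, t ^ 2 * ((if v ∈ B then ν v else 0) * ((if u ∈ B then ν u else 0) * L)) := by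
                refine Finset.sum_le_sum fun v _ => Finset.sum_le_sum fun u _ => ?_
                exact mul_le_mul_of_nonneg_left (mul_le_mul_of_nonneg_left
                  (mul_le_mul_of_nonneg_left (h1 v u) (hβ u)) (hβ v)) (by positivity)
            _ = t ^ 2 * (a ^ 2 * L) := by
                simp_rw [← Finset.mul_sum, ← Finset.sum_mul]
                rw [Finset.sum_ite_mem, Finset.univ_inter, ← ha]
                ring
        have s4 : (m0 + ε) * a ≤ ∑ v ∈ B, ν v * Pot l ν v := by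
          rw [ha, Finset.mul_sum]
          refine Finset.sum_le_sum fun v hv => ?_
          have := (Finset.mem_filter.mp hv).2
          nlinarith [hν v]
        rw [s1, s2]
        have s5 : t ^ 2 * (a ^ 2 * L) = b ^ 2 * L := by
          rw [← hta]; ring
        have s6 : t * ((m0 + ε) * a) ≤ t * ∑ v ∈ B, ν v * Pot l ν v :=
          mul_le_mul_of_nonneg_left s4 ht0.le
        have s7 : t * ((m0 + ε) * a) = b * (m0 + ε) := by
          rw [← hta]; ring
        unfold En
        nlinarith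
      rw [e1, div_le_iff₀ (by positivity)]
      refine e2.trans ?_
      have hc : ε ^ 2 / (2 * L) = b * ε := by
        rw [hb]; field_simp
      rw [hc]
      have hb2L : b ^ 2 * L = b * (ε / 2) := by
        rw [← hbL]; ring
      rw [hb2L]
      have hm0' : b * En l ν ≤ b * m0 := mul_le_mul_of_nonneg_left hE hb0.le
      have h3 : b * ε * (1 - b) ^ 2 ≤ b * ε := by
        have : (1 - b) ^ 2 ≤ 1 := by
          apply pow_le_one₀ <;> linarith
        have hbe : 0 ≤ b * ε := by positivity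
        nlinarith
      have h4 : 0 ≤ b ^ 2 * En l ν := by positivity
      have hbe : 0 ≤ b * ε := by positivity
      nlinarith

lemma good_measure_aux {l : V → V → ℝ} {L m0 ε : ℝ} (hL : 0 < L) (hε : 0 < ε) (hεL : ε ≤ L)
    (hm0 : m0 ≤ L)
    (hsym : ∀ u v, l u v = l v u) (h0 : ∀ u v, 0 ≤ l u v) (h1 : ∀ u v, l u v ≤ L) (n : ℕ) :
    ∀ ν : V → ℝ, (∀ v, 0 ≤ ν v) → ∑ v, ν v = 1 → En l ν ≤ m0 →
      En l ν < n * (ε ^ 2 / (2 * L)) →
      ∃ π : V → ℝ, (∀ v, 0 ≤ π v) ∧ ∑ v, π v = 1 ∧ (∀ v, π v ≤ 2 ^ n * ν v) ∧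
        ∀ v, π v ≠ 0 → Pot l π v ≤ m0 + 3 * ε := by
  induction n with
  | zero =>
    intro ν hν hs _ hE
    have := En_nonneg h0 hν
    simp at hE
    linarith
  | succ n ih =>
    intro ν hν hs hE hE2
    rcases step hL hε hεL hm0 hsym h0 h1 hν hs hE with ⟨π, a1, a2, a3, a4⟩ | ⟨ν', a1, a2, a3, a4⟩
    · refine ⟨π, a1, a2, fun v => (a3 v).trans ?_, a4⟩
      have : (2 : ℝ) ≤ 2 ^ (n + 1) := by
        rw [pow_succ]
        have : (1 : ℝ) ≤ 2 ^ n := one_le_pow₀ (by norm_num)
        linarith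
      exact mul_le_mul_of_nonneg_right this (hν v)
    · have hd : 0 < ε ^ 2 / (2 * L) := by positivity
      obtain ⟨π, b1, b2, b3, b4⟩ := ih ν' a1 a2 (by linarith) (by
        push_cast at hE2
        nlinarith)
      refine ⟨π, b1, b2, fun v => (b3 v).trans ?_, b4⟩
      calc (2 : ℝ) ^ n * ν' v ≤ 2 ^ n * (2 * ν v) :=
            mul_le_mul_of_nonneg_left (a3 v) (by positivity)
        _ = 2 ^ (n + 1) * ν v := by rw [pow_succ]; ring

/-- **Every measure dominates, up to a constant, a measure whose potential is nowhere on its support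
larger than the energy of the given one.** -/
theorem good_measure {l : V → V → ℝ} {L ε : ℝ} (hL : 0 < L) (hε : 0 < ε) (hεL : ε ≤ L)
    (hsym : ∀ u v, l u v = l v u) (h0 : ∀ u v, 0 ≤ l u v) (h1 : ∀ u v, l u v ≤ L)
    (ν : V → ℝ) (hν : ∀ v, 0 ≤ ν v) (hs : ∑ v, ν v = 1) :
    ∃ π : V → ℝ, (∀ v, 0 ≤ π v) ∧ ∑ v, π v = 1 ∧
      (∀ v, π v ≤ 2 ^ (⌊2 * L ^ 2 / ε ^ 2⌋₊ + 1) * ν v) ∧
        ∀ v, π v ≠ 0 → Pot l π v ≤ En l ν + 3 * ε := by
  refine good_measure_aux (m0 := En l ν) hL hε hεL (En_le h1 hν hs) hsym h0 h1 _ ν hν hs le_rfl ?_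
  refine lt_of_le_of_lt (En_le h1 hν hs) ?_
  have h := Nat.lt_floor_add_one (2 * L ^ 2 / ε ^ 2)
  have hd : 0 < ε ^ 2 / (2 * L) := by positivity
  have e : L = (2 * L ^ 2 / ε ^ 2) * (ε ^ 2 / (2 * L)) := by field_simp
  push_cast
  calc L = (2 * L ^ 2 / ε ^ 2) * (ε ^ 2 / (2 * L)) := e
    _ < _ := mul_lt_mul_of_pos_right h hd

end energy

end Pool.Agent.U180.SR
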