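import Mathlib
import Pool.Agent.U180.SR.Prod
import Pool.Agent.U180.SR.Energy

/-! # Random samples from a measure with bounded potential -/

open Finset

set_option linter.unusedSectionVars false

namespace Pool.Agent.U180.SR

section sample
variable {V : Type*} [Fintype V] [DecidableEq V] {k : ℕ}

/-- the cost of index `i` -/
noncomputable def Dx (l : V → V → ℝ) (x : Fin k → V) (i : Fin k) : ℝ :=
  ∑ j ∈ univ.erase i, l (x i) (x j)

open Classical in
/-- the indices of large cost -/
noncomputable def badI (l : V → V → ℝ) (K : ℝ) (x : Fin k → V) : Finset (Fin k) :=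
  univ.filter fun i => K ≤ Dx l x i

open Classical in
/-- the indices of small cost -/
noncomputable def goodI (l : V → V → ℝ) (K : ℝ) (x : Fin k → V) : Finset (Fin k) :=
  univ.filter fun i => ¬ K ≤ Dx l x i

/-- the set of the vertices of small cost -/
noncomputable def Sx (l : V → V → ℝ) (K : ℝ) (x : Fin k → V) : Finset V :=
  (goodI l K x).image x

lemma card_good (l : V → V → ℝ) (K : ℝ) (x : Fin k → V) :
    (badI l K x).card + (goodI l K x).card = k := by
  classical
  have := Finset.card_filter_add_card_filter_not (s := (univ : Finset (Fin k)))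
    (fun i => K ≤ Dx l x i)
  simpa [badI, goodI] using this

lemma card_Sx {l : V → V → ℝ} {K : ℝ} {x : Fin k → V} (hx : Function.Injective x) :
    (Sx l K x).card = (goodI l K x).card := Finset.card_image_of_injective _ hx

lemma cost_vertex {l : V → V → ℝ} {K : ℝ} {x : Fin k → V} (hx : Function.Injective x)
    (h0 : ∀ u v, 0 ≤ l u v) (hd : ∀ v, l v v = 0) {v : V} (hv : v ∈ Sx l K x) :
    ∑ u ∈ Sx l K x, l v u ≤ K := by
  classical
  obtain ⟨i, hi, rfl⟩ := Finset.mem_image.mp hv
  have hi' : Dx l x i < K := not_le.mp (Finset.mem_filter.mp hi).2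
  unfold Sx
  rw [Finset.sum_image (fun a _ b _ h => hx h)]
  calc ∑ j ∈ goodI l K x, l (x i) (x j) ≤ ∑ j, l (x i) (x j) :=
        Finset.sum_le_sum_of_subset_of_nonneg (Finset.subset_univ _) (fun j _ _ => h0 _ _)
    _ = l (x i) (x i) + Dx l x i := by
        rw [Dx, Finset.add_sum_erase univ (fun j => l (x i) (x j)) (Finset.mem_univ i)]
    _ ≤ K := by rw [hd]; linarith

lemma cost_sub {l : V → V → ℝ} {K : ℝ} {x : Fin k → V} (hx : Function.Injective x)
    (h0 : ∀ u v, 0 ≤ l u v) (hd : ∀ v, l v v = 0) {J : Finset V} (hJ : J ⊆ Sx l K x) :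
    ∑ v ∈ J, ∑ u ∈ J, l v u ≤ J.card * K := by
  calc ∑ v ∈ J, ∑ u ∈ J, l v u ≤ ∑ v ∈ J, K := by
        refine Finset.sum_le_sum fun v hv => ?_
        refine le_trans ?_ (cost_vertex hx h0 hd (hJ hv))
        exact Finset.sum_le_sum_of_subset_of_nonneg hJ (fun u _ _ => h0 _ _)
    _ = J.card * K := by rw [Finset.sum_const, nsmul_eq_mul]

variable {π : V → ℝ} (hπ0 : ∀ v, 0 ≤ π v) (hπ : ∑ v, π v = 1)
include hπ0 hπ

lemma bad_one {l : V → V → ℝ} {L M ε : ℝ} (hε : 0 < ε) (hk : 2 ≤ k)
    (h0 : ∀ u v, 0 ≤ l u v) (h1 : ∀ u v, l u v ≤ L)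
    (hM : ∀ v, π v ≠ 0 → Pot l π v ≤ M) (i : Fin k) :
    ∑ x : Fin k → V, (∏ j, π (x j)) * (if i ∈ badI l ((k - 1) * (M + ε)) x then (1 : ℝ) else 0)
      ≤ L ^ 2 / ((k - 1) * ε ^ 2) := by
  classical
  have hk1 : (1 : ℝ) ≤ (k : ℝ) - 1 := by
    have : (2 : ℝ) ≤ k := by exact_mod_cast hk
    linarith
  set f : V → V → ℝ := fun v u => l v u - Pot l π v with hf
  have hf0 : ∀ v, ∑ u, π u * f v u = 0 := by
    intro v
    simp only [hf, mul_sub, Finset.sum_sub_distrib]
    rw [← Finset.sum_mul, hπ, one_mul]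
    simp [Pot]
  have hfL : ∀ u v, |f u v| ≤ L := by
    intro u v
    simp only [hf]
    rw [abs_le]
    have a1 := h0 u v
    have a2 := h1 u v
    have a3 := Pot_nonneg h0 hπ0 u
    have a4 := Pot_le h1 hπ0 hπ u
    constructor <;> linarith
  have hsm := second_moment π hπ0 hπ f hf0 hfL i
  have hkey : ∀ x : Fin k → V,
      (∏ j, π (x j)) * (if i ∈ badI l ((k - 1) * (M + ε)) x then (1 : ℝ) else 0)
        ≤ ((∏ j, π (x j)) * (∑ j ∈ univ.erase i, f (x i) (x j)) ^ 2) / (((k : ℝ) - 1) * ε) ^ 2 := by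
    intro x
    have hp : 0 ≤ ∏ j, π (x j) := Finset.prod_nonneg fun j _ => hπ0 _
    by_cases hz : ∏ j, π (x j) = 0
    · simp [hz]
    by_cases hb : i ∈ badI l ((k - 1) * (M + ε)) x
    · simp only [hb, if_true, mul_one]
      rw [le_div_iff₀ (by positivity)]
      refine mul_le_mul_of_nonneg_left ?_ hp
      have hxi : π (x i) ≠ 0 := by
        intro h
        exact hz (Finset.prod_eq_zero (Finset.mem_univ i) h)
      have hP := hM _ hxi
      have hD : ((k : ℝ) - 1) * (M + ε) ≤ Dx l x i := (Finset.mem_filter.mp hb).2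
      have hs : ∑ j ∈ univ.erase i, f (x i) (x j) = Dx l x i - ((k : ℝ) - 1) * Pot l π (x i) := by
        simp only [hf, Finset.sum_sub_distrib, Dx]
        rw [Finset.sum_const, Finset.card_erase_of_mem (Finset.mem_univ i), Finset.card_univ,
          Fintype.card_fin, nsmul_eq_mul, Nat.cast_sub (by omega)]
        simp
      rw [hs]
      have h3 : ((k : ℝ) - 1) * ε ≤ Dx l x i - ((k : ℝ) - 1) * Pot l π (x i) := by
        nlinarith
      exact pow_le_pow_left₀ (by positivity) h3 2
    · simp only [hb, if_false, mul_zero]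
      positivity
  calc _ ≤ ∑ x : Fin k → V, ((∏ j, π (x j)) * (∑ j ∈ univ.erase i, f (x i) (x j)) ^ 2)
            / (((k : ℝ) - 1) * ε) ^ 2 := Finset.sum_le_sum fun x _ => hkey x
    _ = (∑ x : Fin k → V, ((∏ j, π (x j)) * (∑ j ∈ univ.erase i, f (x i) (x j)) ^ 2))
            / (((k : ℝ) - 1) * ε) ^ 2 := by rw [Finset.sum_div]
    _ ≤ (((k : ℝ) - 1) * L ^ 2) / (((k : ℝ) - 1) * ε) ^ 2 := by
        apply div_le_div_of_nonneg_right hsm; positivity
    _ = L ^ 2 / ((k - 1) * ε ^ 2) := by
        have : (k : ℝ) - 1 ≠ 0 := by linarith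
        field_simp

lemma bad_mean {l : V → V → ℝ} {L M ε : ℝ} (hε : 0 < ε) (hk : 2 ≤ k)
    (h0 : ∀ u v, 0 ≤ l u v) (h1 : ∀ u v, l u v ≤ L)
    (hM : ∀ v, π v ≠ 0 → Pot l π v ≤ M) :
    ∑ x : Fin k → V, (∏ j, π (x j)) * ((badI l ((k - 1) * (M + ε)) x).card : ℝ)
      ≤ 2 * L ^ 2 / ε ^ 2 := by
  classical
  have e : ∀ x : Fin k → V, (∏ j, π (x j)) * ((badI l ((k - 1) * (M + ε)) x).card : ℝ)
      = ∑ i, (∏ j, π (x j)) * (if i ∈ badI l ((k - 1) * (M + ε)) x then (1 : ℝ) else 0) := by
    intro x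
    rw [← Finset.mul_sum]
    congr 1
    rw [Finset.sum_ite_mem, Finset.univ_inter, Finset.sum_const, nsmul_eq_mul, mul_one]
  simp_rw [e]
  rw [Finset.sum_comm]
  have hk2 : (2 : ℝ) ≤ k := by exact_mod_cast hk
  calc _ ≤ ∑ _i : Fin k, L ^ 2 / (((k : ℝ) - 1) * ε ^ 2) :=
        Finset.sum_le_sum fun i _ => bad_one hπ0 hπ hε hk h0 h1 hM i
    _ = k * (L ^ 2 / (((k : ℝ) - 1) * ε ^ 2)) := by
        rw [Finset.sum_const, Finset.card_univ, Fintype.card_fin, nsmul_eq_mul]
    _ ≤ 2 * L ^ 2 / ε ^ 2 := by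
        have h3 : (0 : ℝ) < (k : ℝ) - 1 := by linarith
        rw [← mul_div_assoc, div_le_div_iff₀ (by positivity) (by positivity)]
        have : (k : ℝ) ≤ 2 * ((k : ℝ) - 1) := by linarith
        have hp : 0 ≤ L ^ 2 * ε ^ 2 := by positivity
        nlinarith

lemma noninj {κ : ℝ} (hκ : ∀ v, π v ≤ κ) :
    ∑ x : Fin k → V, (∏ j, π (x j)) * (if Function.Injective x then (0 : ℝ) else 1)
      ≤ (k : ℝ) ^ 2 * κ := by
  classical
  have hκ0 : 0 ≤ κ := by
    by_contra hcon
    push Not at hcon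
    have h1 : ∀ v, π v = 0 := fun v => le_antisymm ((hκ v).trans hcon.le) (hπ0 v)
    simp [h1] at hπ
  have hpair : ∀ i j : Fin k, i ≠ j →
      ∑ x : Fin k → V, (∏ j, π (x j)) * (if x i = x j then (1 : ℝ) else 0) ≤ κ := by
    intro i j hij
    rw [resample (fun _ => π) (fun _ => hπ) j (fun x => if x i = x j then (1 : ℝ) else 0)]
    calc _ ≤ ∑ x : Fin k → V, (∏ j, π (x j)) * κ := by
          refine Finset.sum_le_sum fun x _ => ?_
          refine mul_le_mul_of_nonneg_left ?_ (Finset.prod_nonneg fun j _ => hπ0 _)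
          have : ∑ u, π u * (if Function.update x j u i = Function.update x j u j then (1 : ℝ) else 0)
              = π (x i) := by
            have e : ∀ u, π u * (if Function.update x j u i = Function.update x j u j then (1 : ℝ) else 0)
                = if x i = u then π u else 0 := by
              intro u
              rw [Function.update_of_ne hij, Function.update_self]
              split_ifs <;> simp
            simp_rw [e]
            simp
          rw [this]
          exact hκ _
      _ = κ := by rw [← Finset.sum_mul, sum_prod_one (fun _ => π) (fun _ => hπ), one_mul]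
  calc _ ≤ ∑ x : Fin k → V, ∑ i, ∑ j ∈ univ.erase i,
          (∏ j, π (x j)) * (if x i = x j then (1 : ℝ) else 0) := by
        refine Finset.sum_le_sum fun x _ => ?_
        have hp : 0 ≤ ∏ j, π (x j) := Finset.prod_nonneg fun j _ => hπ0 _
        have hnn : ∀ i : Fin k, 0 ≤ ∑ j ∈ univ.erase i,
            (∏ j, π (x j)) * (if x i = x j then (1 : ℝ) else 0) := fun i =>
          Finset.sum_nonneg fun j _ => mul_nonneg hp (by split_ifs <;> norm_num)
        by_cases hx : Function.Injective x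
        · simp only [hx, if_true, mul_zero]
          exact Finset.sum_nonneg fun i _ => hnn i
        · simp only [hx, if_false]
          have : ∃ i j, x i = x j ∧ i ≠ j := by
            unfold Function.Injective at hx
            push Not at hx
            exact hx
          obtain ⟨i, j, hij, hne⟩ := this
          have h2 : (∏ j, π (x j)) * 1 ≤ ∑ j ∈ univ.erase i,
              (∏ j, π (x j)) * (if x i = x j then (1 : ℝ) else 0) := by
            have := Finset.single_le_sum (f := fun j => (∏ j, π (x j)) *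
              (if x i = x j then (1 : ℝ) else 0)) (s := univ.erase i)
              (fun j _ => mul_nonneg hp (by split_ifs <;> norm_num))
              (Finset.mem_erase.mpr ⟨hne.symm, Finset.mem_univ j⟩)
            simpa [hij] using this
          exact h2.trans (Finset.single_le_sum (f := fun i => ∑ j ∈ univ.erase i,
            (∏ j, π (x j)) * (if x i = x j then (1 : ℝ) else 0)) (fun i _ => hnn i)
            (Finset.mem_univ i))
    _ = ∑ i, ∑ j ∈ univ.erase i, ∑ x : Fin k → V,
          (∏ j, π (x j)) * (if x i = x j then (1 : ℝ) else 0) := by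
        rw [Finset.sum_comm]
        refine Finset.sum_congr rfl fun i _ => ?_
        rw [Finset.sum_comm]
    _ ≤ ∑ i : Fin k, ∑ j ∈ univ.erase i, κ := by
        refine Finset.sum_le_sum fun i _ => Finset.sum_le_sum fun j hj => ?_
        exact hpair i j (Finset.mem_erase.mp hj).1.symm
    _ ≤ ∑ i : Fin k, ∑ _j : Fin k, κ := by
        refine Finset.sum_le_sum fun i _ => ?_
        exact Finset.sum_le_sum_of_subset_of_nonneg (Finset.erase_subset _ _) (fun _ _ _ => hκ0)
    _ = (k : ℝ) ^ 2 * κ := by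
        simp only [Finset.sum_const, Finset.card_univ, Fintype.card_fin, nsmul_eq_mul]
        ring

/-- samples without repetitions and with few vertices of large cost -/
def Good (l : V → V → ℝ) (K : ℝ) (b : ℕ) (x : Fin k → V) : Prop :=
  Function.Injective x ∧ (badI l K x).card ≤ b

open Classical in
lemma good_mass {l : V → V → ℝ} {L M ε κ : ℝ} {b : ℕ} (hε : 0 < ε) (hk : 2 ≤ k)
    (h0 : ∀ u v, 0 ≤ l u v) (h1 : ∀ u v, l u v ≤ L)
    (hM : ∀ v, π v ≠ 0 → Pot l π v ≤ M) (hκ : ∀ v, π v ≤ κ) (hkκ : (k : ℝ) ^ 2 * κ ≤ 1 / 4)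
    (hb : 4 * L ^ 2 / ε ^ 2 ≤ b + 1) :
    1 / 4 ≤ ∑ x : Fin k → V, (if Good l ((k - 1) * (M + ε)) b x then (∏ j, π (x j)) else 0) := by
  have h2 := bad_mean hπ0 hπ hε hk h0 h1 hM
  have h3 := noninj (k := k) hπ0 hπ hκ
  have h4 := sum_prod_one (fun _ : Fin k => π) (fun _ => hπ)
  have hb0 : (0 : ℝ) < b + 1 := by positivity
  have hkey : ∀ x : Fin k → V, (∏ j, π (x j)) ≤
      (if Good l ((k - 1) * (M + ε)) b x then (∏ j, π (x j)) else 0)
      + (∏ j, π (x j)) * (if Function.Injective x then (0 : ℝ) else 1)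
      + ((∏ j, π (x j)) * ((badI l ((k - 1) * (M + ε)) x).card : ℝ)) / (b + 1) := by
    intro x
    have hp : 0 ≤ ∏ j, π (x j) := Finset.prod_nonneg fun j _ => hπ0 _
    have hc : 0 ≤ ((∏ j, π (x j)) * ((badI l ((k - 1) * (M + ε)) x).card : ℝ)) / (b + 1) := by
      positivity
    by_cases hx : Function.Injective x
    · by_cases hbx : (badI l ((k - 1) * (M + ε)) x).card ≤ b
      · have hg : Good l ((k - 1) * (M + ε)) b x := ⟨hx, hbx⟩
        simp only [hg, hx, if_true, mul_zero]
        linarith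
      · have hg : ¬ Good l ((k - 1) * (M + ε)) b x := fun h => hbx h.2
        simp only [hg, hx, if_true, if_false, mul_zero]
        push Not at hbx
        have : (b : ℝ) + 1 ≤ ((badI l ((k - 1) * (M + ε)) x).card : ℝ) := by exact_mod_cast hbx
        have h5 : ∏ j, π (x j) ≤ ((∏ j, π (x j)) * ((badI l ((k - 1) * (M + ε)) x).card : ℝ)) / (b + 1) := by
          rw [le_div_iff₀ hb0]
          exact mul_le_mul_of_nonneg_left this hp
        linarith
    · have hg : ¬ Good l ((k - 1) * (M + ε)) b x := fun h => hx h.1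
      simp only [hg, hx, if_false, mul_one]
      linarith
  have h5 := Finset.sum_le_sum (s := (univ : Finset (Fin k → V))) fun x _ => hkey x
  rw [h4, Finset.sum_add_distrib, Finset.sum_add_distrib, ← Finset.sum_div] at h5
  have h6 : (∑ x : Fin k → V, (∏ j, π (x j)) * ((badI l ((k - 1) * (M + ε)) x).card : ℝ)) / (b + 1)
      ≤ 1 / 2 := by
    rw [div_le_iff₀ hb0]
    refine h2.trans ?_
    have : 2 * L ^ 2 / ε ^ 2 = (4 * L ^ 2 / ε ^ 2) / 2 := by ring
    rw [this]
    linarith
  linarith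

/-- the sum over the samples of the exponential weight of the common vertices -/
lemma common_sum {κ T : ℝ} (hκ : ∀ v, π v ≤ κ) (hT : 0 ≤ T) (y : Fin k → V) :
    ∑ x : Fin k → V, (∏ j, π (x j)) *
      ∏ i, (1 + (Real.exp T - 1) * (if x i ∈ univ.image y then (1 : ℝ) else 0))
      ≤ Real.exp ((k : ℝ) ^ 2 * κ * Real.exp T) := by
  have hκ0 : 0 ≤ κ := by
    by_contra hcon
    push Not at hcon
    have h1 : ∀ v, π v = 0 := fun v => le_antisymm ((hκ v).trans hcon.le) (hπ0 v)
    simp [h1] at hπ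
  have hE : 1 ≤ Real.exp T := Real.one_le_exp hT
  rw [sum_prod_mul (fun _ : Fin k => π)
    (fun _ a => 1 + (Real.exp T - 1) * (if a ∈ univ.image y then (1 : ℝ) else 0))]
  have e : ∀ _i : Fin k, ∑ a, π a * (1 + (Real.exp T - 1) * (if a ∈ univ.image y then (1 : ℝ) else 0))
      = 1 + (Real.exp T - 1) * ∑ a ∈ univ.image y, π a := by
    intro _
    have e1 : ∀ a, π a * (1 + (Real.exp T - 1) * (if a ∈ univ.image y then (1 : ℝ) else 0))
        = π a + (Real.exp T - 1) * (if a ∈ univ.image y then π a else 0) := by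
      intro a; split_ifs <;> ring
    simp_rw [e1]
    rw [Finset.sum_add_distrib, hπ, ← Finset.mul_sum, Finset.sum_ite_mem, Finset.univ_inter]
  rw [Finset.prod_congr rfl (fun i _ => e i)]
  rw [Finset.prod_const, Finset.card_univ, Fintype.card_fin]
  have hsum : ∑ a ∈ univ.image y, π a ≤ k * κ := by
    calc ∑ a ∈ univ.image y, π a ≤ ∑ a ∈ univ.image y, κ := Finset.sum_le_sum fun a _ => hκ a
      _ = ((univ.image y).card : ℝ) * κ := by rw [Finset.sum_const, nsmul_eq_mul]
      _ ≤ k * κ := by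
          have : ((univ.image y).card : ℝ) ≤ k := by
            have := Finset.card_image_le (s := (univ : Finset (Fin k))) (f := y)
            rw [Finset.card_univ, Fintype.card_fin] at this
            exact_mod_cast this
          exact mul_le_mul_of_nonneg_right this hκ0
  have hsum0 : 0 ≤ ∑ a ∈ univ.image y, π a := Finset.sum_nonneg fun a _ => hπ0 a
  have h1 : 1 + (Real.exp T - 1) * ∑ a ∈ univ.image y, π a ≤ Real.exp (Real.exp T * (k * κ)) := by
    have h2 : (Real.exp T - 1) * ∑ a ∈ univ.image y, π a ≤ Real.exp T * (k * κ) :=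
      mul_le_mul (by linarith) hsum hsum0 (by positivity)
    have h3 := Real.add_one_le_exp (Real.exp T * (k * κ))
    linarith
  calc (1 + (Real.exp T - 1) * ∑ a ∈ univ.image y, π a) ^ k
      ≤ (Real.exp (Real.exp T * (k * κ))) ^ k :=
        pow_le_pow_left₀ (by nlinarith) h1 k
    _ = Real.exp ((k : ℝ) ^ 2 * κ * Real.exp T) := by
        rw [← Real.exp_nat_mul]
        congr 1
        ring

end sample

end Pool.Agent.U180.SR
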