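import Mathlib
import Pool.Agent.U180.SR.Sample
import Pool.Agent.U180.SR.Col

/-! # The second moment -/

open Finset

set_option linter.unusedSectionVars false

namespace Pool.Agent.U180.SR

/-- Paley-Zygmund for a nonnegative variable on a finite probability space -/
lemma paley {Ω : Type*} [Fintype Ω] (P X : Ω → ℝ) (hP : ∀ c, 0 ≤ P c) (E : Ω → Prop)
    [DecidablePred E] (hE : ∀ c, X c ≠ 0 → E c) {g τ : ℝ} (hg : 0 < g) (hτ : 0 ≤ τ)
    (h1 : ∑ c, P c * X c = g) (h2 : ∑ c, P c * X c ^ 2 ≤ g ^ 2 + τ) :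
    1 - τ / g ^ 2 ≤ ∑ c, P c * (if E c then 1 else 0) := by
  set A : ℝ := ∑ c, P c * (if E c then 1 else 0) with hA
  have hA0 : 0 ≤ A := Finset.sum_nonneg fun c _ => mul_nonneg (hP c) (by split_ifs <;> norm_num)
  have hcs := Finset.sum_mul_sq_le_sq_mul_sq (univ : Finset Ω)
    (fun c => Real.sqrt (P c) * (if E c then 1 else 0)) (fun c => Real.sqrt (P c) * X c)
  have e1 : ∀ c, Real.sqrt (P c) * (if E c then (1 : ℝ) else 0) * (Real.sqrt (P c) * X c)
      = P c * X c := by
    intro c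
    have hs := Real.mul_self_sqrt (hP c)
    by_cases hc : E c
    · simp only [hc, if_true]
      calc _ = (Real.sqrt (P c) * Real.sqrt (P c)) * X c := by ring
        _ = _ := by rw [hs]
    · have : X c = 0 := by
        by_contra h
        exact hc (hE c h)
      simp [hc, this]
  have e2 : ∀ c, (Real.sqrt (P c) * (if E c then (1 : ℝ) else 0)) ^ 2
      = P c * (if E c then 1 else 0) := by
    intro c
    rw [mul_pow, Real.sq_sqrt (hP c)]
    split_ifs <;> simp
  have e3 : ∀ c, (Real.sqrt (P c) * X c) ^ 2 = P c * X c ^ 2 := by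
    intro c
    rw [mul_pow, Real.sq_sqrt (hP c)]
  simp_rw [e1, e2, e3] at hcs
  rw [h1] at hcs
  have hg2 : 0 < g ^ 2 := by positivity
  have h3 : g ^ 2 ≤ A * (g ^ 2 + τ) := hcs.trans (mul_le_mul_of_nonneg_left h2 hA0)
  have h4 : 1 - τ / g ^ 2 ≤ g ^ 2 / (g ^ 2 + τ) := by
    rw [le_div_iff₀ (by positivity)]
    have : (1 - τ / g ^ 2) * (g ^ 2 + τ) = g ^ 2 - τ ^ 2 / g ^ 2 := by
      field_simp
      ring
    rw [this]
    have : 0 ≤ τ ^ 2 / g ^ 2 := by positivity
    linarith
  refine h4.trans ?_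
  rw [div_le_iff₀ (by positivity)]
  exact h3

variable {N q k : ℕ}

open Classical in
/-- the weight of the common part of two samples -/
lemma weight_le {p : Edge N → Fin q → ℝ} {a : Fin q} {K T : ℝ} {b : ℕ}
    (h0 : ∀ e, 0 < p e a) (h1 : ∀ e, p e a ≤ 1) (hT : 0 ≤ T) (hKT : K / 2 ≤ T)
    {x y : Fin k → Fin N} (hx : Good (cst p a) K b x) :
    (∏ e ∈ inE (Sx (cst p a) K x) ∪ inE (Sx (cst p a) K y), p e a) /
      ((∏ e ∈ inE (Sx (cst p a) K x), p e a) * ∏ e ∈ inE (Sx (cst p a) K y), p e a)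
      ≤ ∏ i, (1 + (Real.exp T - 1) * (if x i ∈ univ.image y then (1 : ℝ) else 0)) := by
  rw [pair_ratio h0]
  set J := Sx (cst p a) K x ∩ Sx (cst p a) K y with hJ
  have hc := cost_sub (l := cst p a) (K := K) hx.1 (cst_nonneg (fun e => (h0 e).le) h1) (cst_diag p a)
    (J := J) Finset.inter_subset_left
  have hR : ∏ i, (1 + (Real.exp T - 1) * (if x i ∈ univ.image y then (1 : ℝ) else 0))
      = Real.exp (((univ.filter fun i => x i ∈ univ.image y).card : ℝ) * T) := by
    have e : ∀ i, (1 + (Real.exp T - 1) * (if x i ∈ univ.image y then (1 : ℝ) else 0))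
        = if x i ∈ univ.image y then Real.exp T else 1 := by
      intro i; split_ifs <;> ring
    rw [Finset.prod_congr rfl (fun i _ => e i), Finset.prod_ite, Finset.prod_const_one, mul_one,
      Finset.prod_const, ← Real.exp_nat_mul]
  rw [hR]
  apply Real.exp_le_exp.mpr
  have hcard : (J.card : ℝ) ≤ ((univ.filter fun i => x i ∈ univ.image y).card : ℝ) := by
    have hsub : J ⊆ (univ.filter fun i => x i ∈ univ.image y).image x := by
      intro v hv
      rw [hJ, Finset.mem_inter] at hv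
      obtain ⟨i, _, rfl⟩ := Finset.mem_image.mp hv.1
      obtain ⟨j, _, hj⟩ := Finset.mem_image.mp hv.2
      refine Finset.mem_image.mpr ⟨i, ?_, rfl⟩
      rw [Finset.mem_filter]
      exact ⟨Finset.mem_univ _, Finset.mem_image.mpr ⟨j, Finset.mem_univ _, hj⟩⟩
    exact_mod_cast (Finset.card_le_card hsub).trans Finset.card_image_le
  have hJ0 : (0 : ℝ) ≤ (J.card : ℝ) := by positivity
  calc (∑ v ∈ J, ∑ u ∈ J, cst p a v u) / 2 ≤ (J.card * K) / 2 := by linarith
    _ = J.card * (K / 2) := by ring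
    _ ≤ J.card * T := mul_le_mul_of_nonneg_left hKT hJ0
    _ ≤ _ := mul_le_mul_of_nonneg_right hcard hT

open Classical in
/-- **The second moment argument.** -/
theorem second {p : Edge N → Fin q → ℝ} {a : Fin q} {π : Fin N → ℝ} {L M ε κ T : ℝ} {b : ℕ}
    (hp0 : ∀ e a, 0 ≤ p e a) (h0 : ∀ e, 0 < p e a) (hp : ∀ e, ∑ a, p e a = 1)
    (hL0 : 0 ≤ L) (hL : ∀ e, -Real.log (p e a) ≤ L)
    (hπ0 : ∀ v, 0 ≤ π v) (hπ : ∑ v, π v = 1) (hκ : ∀ v, π v ≤ κ)
    (hε : 0 < ε) (hk : 2 ≤ k)
    (hM : ∀ v, π v ≠ 0 → Pot (cst p a) π v ≤ M) (hkκ : (k : ℝ) ^ 2 * κ ≤ 1 / 4)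
    (hb : 4 * L ^ 2 / ε ^ 2 ≤ b + 1) (hT : 0 ≤ T) (hKT : ((k : ℝ) - 1) * (M + ε) / 2 ≤ T) :
    1 - 16 * (Real.exp ((k : ℝ) ^ 2 * κ * Real.exp T) - 1)
      ≤ Pr p (fun c => ∃ S : Finset (Fin N), k ≤ S.card + b ∧ MonoIn c a S) := by
  have h1 : ∀ e, p e a ≤ 1 := by
    intro e
    rw [← hp e]
    exact Finset.single_le_sum (f := fun a => p e a) (fun a _ => hp0 e a) (Finset.mem_univ a)
  set l := cst p a with hl
  have hl0 : ∀ u v, 0 ≤ l u v := cst_nonneg (fun e => (h0 e).le) h1
  have hlL : ∀ u v, l u v ≤ L := cst_le hL0 hL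
  set K : ℝ := ((k : ℝ) - 1) * (M + ε) with hK
  set W : (Fin k → Fin N) → ℝ := fun x => ∏ j, π (x j) with hW
  have hW0 : ∀ x, 0 ≤ W x := fun x => Finset.prod_nonneg fun j _ => hπ0 _
  set μ : (Fin k → Fin N) → ℝ := fun x => if Good l K b x then W x else 0 with hμ
  have hμ0 : ∀ x, 0 ≤ μ x := by
    intro x; simp only [hμ]; split_ifs
    · exact hW0 x
    · exact le_rfl
  have hμW : ∀ x, μ x ≤ W x := by
    intro x; simp only [hμ]; split_ifs
    · exact le_rfl
    · exact hW0 x
  set g : ℝ := ∑ x, μ x with hg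
  have hg4 : 1 / 4 ≤ g := good_mass hπ0 hπ hε hk hl0 hlL hM hκ hkκ hb
  have hκ0 : 0 ≤ κ := by
    by_contra hcon
    push Not at hcon
    have h1 : ∀ v, π v = 0 := fun v => le_antisymm ((hκ v).trans hcon.le) (hπ0 v)
    simp [h1] at hπ
  set τ : ℝ := Real.exp ((k : ℝ) ^ 2 * κ * Real.exp T) - 1 with hτ
  have hτ0 : 0 ≤ τ := by
    have : 1 ≤ Real.exp ((k : ℝ) ^ 2 * κ * Real.exp T) := Real.one_le_exp (by positivity)
    simp only [hτ]; linarith
  set w : Finset (Fin N) → ℝ := fun S => ∏ e ∈ inE S, p e a with hw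
  have hwpos : ∀ S, 0 < w S := fun S => Finset.prod_pos fun e _ => h0 e
  set P : (Edge N → Fin q) → ℝ := fun c => ∏ e, p e (c e) with hP
  have hPnn : ∀ c, 0 ≤ P c := fun c => Finset.prod_nonneg fun e _ => hp0 _ _
  set X : (Edge N → Fin q) → ℝ := fun c =>
    ∑ x, μ x * ((if MonoIn c a (Sx l K x) then (1 : ℝ) else 0) / w (Sx l K x)) with hX
  have hE : ∀ c, X c ≠ 0 → ∃ S : Finset (Fin N), k ≤ S.card + b ∧ MonoIn c a S := by
    intro c hc
    obtain ⟨x, _, hx⟩ := Finset.exists_ne_zero_of_sum_ne_zero hc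
    have hgood : Good l K b x := by
      by_contra hcon
      exact hx (by simp [hμ, hcon])
    have hmono : MonoIn c a (Sx l K x) := by
      by_contra hcon
      exact hx (by simp [hcon])
    refine ⟨Sx l K x, ?_, hmono⟩
    rw [card_Sx hgood.1]
    have h2 := card_good l K x
    have h3 := hgood.2
    omega
  have hX1 : ∑ c, P c * X c = g := by
    have e : ∀ c, P c * X c = ∑ x, μ x / w (Sx l K x) *
        (P c * (if MonoIn c a (Sx l K x) then (1 : ℝ) else 0)) := by
      intro c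
      simp only [hX]
      rw [Finset.mul_sum]
      exact Finset.sum_congr rfl fun x _ => by ring
    simp_rw [e]
    rw [Finset.sum_comm]
    rw [hg]
    refine Finset.sum_congr rfl fun x _ => ?_
    rw [← Finset.mul_sum]
    have := pr_one hp a (Sx l K x)
    simp only [hP]
    rw [this]
    exact div_mul_cancel₀ _ (hwpos _).ne'
  have hX2 : ∑ c, P c * X c ^ 2 ≤ g ^ 2 + τ := by
    have e : ∀ c, P c * X c ^ 2 = ∑ y, ∑ x, μ x * μ y / (w (Sx l K x) * w (Sx l K y)) *
        (P c * ((if MonoIn c a (Sx l K x) then (1 : ℝ) else 0) *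
          (if MonoIn c a (Sx l K y) then (1 : ℝ) else 0))) := by
      intro c
      simp only [hX]
      rw [sq, Finset.sum_mul_sum, Finset.mul_sum, Finset.sum_comm]
      simp_rw [Finset.mul_sum]
      rw [Finset.sum_comm]
      refine Finset.sum_congr rfl fun y _ => Finset.sum_congr rfl fun x _ => ?_
      field_simp
    have e' : ∑ c, P c * X c ^ 2 = ∑ y, ∑ x, μ x * μ y * ((∏ e ∈ inE (Sx l K x) ∪ inE (Sx l K y), p e a) /
      ((∏ e ∈ inE (Sx l K x), p e a) * ∏ e ∈ inE (Sx l K y), p e a)) := by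
      simp_rw [e]
      rw [Finset.sum_comm]
      refine Finset.sum_congr rfl fun y _ => ?_
      rw [Finset.sum_comm]
      refine Finset.sum_congr rfl fun x _ => ?_
      rw [← Finset.mul_sum]
      have := pr_two hp a (Sx l K x) (Sx l K y)
      simp only [hP]
      rw [this]
      simp only [hw]
      ring
    rw [e']
    set R : (Fin k → Fin N) → (Fin k → Fin N) → ℝ := fun x y =>
      ∏ i, (1 + (Real.exp T - 1) * (if x i ∈ univ.image y then (1 : ℝ) else 0)) with hR
    have hexpT : 1 ≤ Real.exp T := Real.one_le_exp hT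
    have hR1 : ∀ x y, 1 ≤ R x y := by
      intro x y
      have h13 : (1 : ℝ) = ∏ _i : Fin k, (1 : ℝ) := by simp
      rw [h13]
      simp only [hR]
      refine Finset.prod_le_prod (fun _ _ => zero_le_one) fun i _ => ?_
      split_ifs <;> simp <;> linarith
    have hterm : ∀ x y, μ x * μ y * ((∏ e ∈ inE (Sx l K x) ∪ inE (Sx l K y), p e a) /
      ((∏ e ∈ inE (Sx l K x), p e a) * ∏ e ∈ inE (Sx l K y), p e a))
        ≤ μ x * μ y + W y * (W x * R x y - W x) := by
      intro x y
      by_cases hgx : Good l K b x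
      · have hle := weight_le (p := p) (a := a) (K := K) (T := T) (b := b) (y := y) h0 h1 hT hKT hgx
        have hmm : 0 ≤ μ x * μ y := mul_nonneg (hμ0 x) (hμ0 y)
        calc _ ≤ μ x * μ y * R x y := mul_le_mul_of_nonneg_left hle hmm
          _ = μ x * μ y + μ x * μ y * (R x y - 1) := by ring
          _ ≤ μ x * μ y + W x * W y * (R x y - 1) := by
              have h5 : μ x * μ y ≤ W x * W y := mul_le_mul (hμW x) (hμW y) (hμ0 y) (hW0 x)
              have h6 := mul_le_mul_of_nonneg_right h5 (sub_nonneg.mpr (hR1 x y))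
              linarith
          _ = _ := by ring
      · have hz : μ x = 0 := by simp [hμ, hgx]
        rw [hz]
        have : 0 ≤ W y * (W x * R x y - W x) := by
          have := mul_nonneg (hW0 x) (sub_nonneg.mpr (hR1 x y))
          have h7 := mul_nonneg (hW0 y) this
          nlinarith
        simpa using this
    calc _ ≤ ∑ y, ∑ x, (μ x * μ y + W y * (W x * R x y - W x)) :=
          Finset.sum_le_sum fun y _ => Finset.sum_le_sum fun x _ => hterm x y
      _ = g ^ 2 + ∑ y, W y * (∑ x, W x * R x y - ∑ x, W x) := by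
          simp only [Finset.sum_add_distrib]
          congr 1
          · rw [hg, sq, Finset.sum_mul_sum, Finset.sum_comm]
          · refine Finset.sum_congr rfl fun y _ => ?_
            rw [← Finset.mul_sum, Finset.sum_sub_distrib]
      _ ≤ g ^ 2 + ∑ y, W y * τ := by
          have h8 : ∑ x, W x = 1 := sum_prod_one (fun _ : Fin k => π) (fun _ => hπ)
          have h9 : ∀ y, ∑ x, W x * R x y - ∑ x, W x ≤ τ := by
            intro y
            have := common_sum (k := k) hπ0 hπ hκ hT y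
            rw [h8, hτ]
            simp only [hW, hR]
            linarith
          have h10 : ∑ y, W y * (∑ x, W x * R x y - ∑ x, W x) ≤ ∑ y, W y * τ :=
            Finset.sum_le_sum fun y _ => mul_le_mul_of_nonneg_left (h9 y) (hW0 y)
          linarith
      _ = g ^ 2 + τ := by
          rw [← Finset.sum_mul]
          have h8 : ∑ x, W x = 1 := sum_prod_one (fun _ : Fin k => π) (fun _ => hπ)
          rw [h8, one_mul]
  have hmain := paley P X hPnn (fun c => ∃ S : Finset (Fin N), k ≤ S.card + b ∧ MonoIn c a S) hE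
    (by linarith) hτ0 hX1 hX2
  have h11 : τ / g ^ 2 ≤ 16 * τ := by
    rw [div_le_iff₀ (by positivity)]
    have : 1 / 16 ≤ g ^ 2 := by nlinarith
    nlinarith
  have h12 : Pr p (fun c => ∃ S : Finset (Fin N), k ≤ S.card + b ∧ MonoIn c a S)
      = ∑ c, P c * (if ∃ S : Finset (Fin N), k ≤ S.card + b ∧ MonoIn c a S then 1 else 0) := by
    unfold Pr
    refine Finset.sum_congr rfl fun c _ => ?_
    by_cases hc : ∃ S : Finset (Fin N), k ≤ S.card + b ∧ MonoIn c a S
    · rw [if_pos hc, if_pos hc]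
    · rw [if_neg hc, if_neg hc]
  rw [h12]
  linarith

end Pool.Agent.U180.SR
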