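import Mathlib
import Pool.Agent.U180.SR.Second

/-! # The largest set in one colour -/

open Finset Filter Topology

set_option linter.unusedSectionVars false

namespace Pool.Agent.U180.SR

lemma tend_aux (A B : ℝ) {c : ℝ} (hc : 0 < c) :
    Tendsto (fun u : ℝ => (A * u + B) ^ 2 * Real.exp (-(c * u))) atTop (𝓝 0) := by
  have h : ∀ n : ℕ, Tendsto (fun u : ℝ => (c * u) ^ n * Real.exp (-(c * u))) atTop (𝓝 0) := by
    intro n
    exact (Real.tendsto_pow_mul_exp_neg_atTop_nhds_zero n).comp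
      (tendsto_id.const_mul_atTop hc)
  have h2 := (h 2).const_mul (A ^ 2 / c ^ 2)
  have h1 := (h 1).const_mul (2 * A * B / c)
  have h0 := (h 0).const_mul (B ^ 2)
  have h3 := (h2.add h1).add h0
  simp only [mul_zero, add_zero] at h3
  refine h3.congr fun u => ?_
  field_simp
  ring

lemma pr_mono {N q : ℕ} {p : Edge N → Fin q → ℝ} (hp : ∀ e a, 0 ≤ p e a)
    {P Q : (Edge N → Fin q) → Prop} (h : ∀ c, P c → Q c) : Pr p P ≤ Pr p Q := by
  unfold Pr
  refine Finset.sum_le_sum fun c _ => ?_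
  refine mul_le_mul_of_nonneg_left ?_ (Finset.prod_nonneg fun e _ => hp _ _)
  by_cases h1 : P c
  · rw [if_pos h1, if_pos (h c h1)]
  · rw [if_neg h1]
    split_ifs <;> norm_num

/-- **The largest set in colour `a`.** -/
theorem core (q : ℕ) (hq : 2 ≤ q) {δ s ε : ℝ} (hδ : 0 < δ) (hs : 0 < s) (hε : 0 < ε)
    (hε1 : ε < 1) :
    ∃ N0 : ℕ, ∀ N ≥ N0, ∀ p : Edge N → Fin q → ℝ, IsLaw δ p → ∀ a : Fin q, ∀ ν : Fin N → ℝ,
      (∀ v, 0 ≤ ν v) → ∑ v, ν v = 1 → (∀ v, ν v ≤ (N : ℝ) ^ (-s)) →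
      ∀ Λ : ℝ, En (cst p a) ν ≤ Λ →
        1 - ε ≤ Pr p (fun c => ∃ S : Finset (Fin N),
          (1 - ε) * (2 * s * Real.log N) / Λ ≤ (S.card : ℝ) ∧ MonoIn c a S) := by
  by_cases hδ2 : 1 / 2 < δ
  · refine ⟨2, fun N hN p hp a => ?_⟩
    exfalso
    have hlt : (⟨0, by omega⟩ : Fin N) < ⟨1, by omega⟩ := by simp
    have e : Edge N := ⟨(⟨0, by omega⟩, ⟨1, by omega⟩), hlt⟩
    have h1 := hp.sum_eq e
    have h2 : ∑ _a : Fin q, δ ≤ ∑ a, p e a := Finset.sum_le_sum fun a _ => hp.ge e a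
    rw [h1, Finset.sum_const, Finset.card_univ, Fintype.card_fin, nsmul_eq_mul] at h2
    have hq' : (2 : ℝ) ≤ q := by exact_mod_cast hq
    nlinarith
  push Not at hδ2
  set L : ℝ := -Real.log δ with hL
  have hLpos : 0 < L := by
    have : Real.log δ < 0 := Real.log_neg hδ (by linarith)
    linarith
  set lam : ℝ := δ / 2 with hlam
  have hlam0 : 0 < lam := by positivity
  set ε₁ : ℝ := min (ε * lam / 8) L with hε₁
  have hε₁0 : 0 < ε₁ := lt_min (by positivity) hLpos
  have hε₁L : ε₁ ≤ L := min_le_right _ _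
  have hε₁l : 4 * ε₁ ≤ ε / 2 * lam := by
    have := min_le_left (ε * lam / 8) L
    linarith
  set C : ℝ := 2 ^ (⌊2 * L ^ 2 / ε₁ ^ 2⌋₊ + 1) with hC
  have hC0 : 0 < C := by positivity
  set b : ℕ := ⌈4 * L ^ 2 / ε₁ ^ 2⌉₊ with hb
  have hb1 : 1 ≤ b := by
    rw [hb, Nat.one_le_ceil_iff]; positivity
  have hbL : 4 * L ^ 2 / ε₁ ^ 2 ≤ (b : ℝ) + 1 := by
    have := Nat.le_ceil (4 * L ^ 2 / ε₁ ^ 2)
    linarith
  -- the asymptotic conditions
  have hlog : Tendsto (fun N : ℕ => Real.log (N : ℝ)) atTop atTop :=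
    Real.tendsto_log_atTop.comp tendsto_natCast_atTop_atTop
  have hT1 : Tendsto (fun u : ℝ => (2 * s / lam * u + (b + 2)) ^ 2 * Real.exp (-(s * ε / 4 * u)))
      atTop (𝓝 0) := tend_aux _ _ (by positivity)
  have hev1 : ∀ᶠ u : ℝ in atTop,
      (2 * s / lam * u + (b + 2)) ^ 2 * Real.exp (-(s * ε / 4 * u)) < ε / (32 * C) :=
    (tendsto_order.1 hT1).2 _ (by positivity)
  have hev2 : ∀ᶠ u : ℝ in atTop, b * (L + 4 * ε₁) / 2 ≤ ε / 4 * s * u := by
    filter_upwards [eventually_ge_atTop (b * (L + 4 * ε₁) / 2 / (ε / 4 * s))] with u hu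
    rw [div_le_iff₀ (by positivity)] at hu
    linarith
  have hev3 : ∀ᶠ u : ℝ in atTop, Real.exp (-(s * u)) ≤ 1 / 2 := by
    have : Tendsto (fun u : ℝ => Real.exp (-(s * u))) atTop (𝓝 0) :=
      Real.tendsto_exp_neg_atTop_nhds_zero.comp (tendsto_id.const_mul_atTop hs)
    exact (this.eventually (ge_mem_nhds (by norm_num : (0 : ℝ) < 1 / 2)))
  have hev4 : ∀ᶠ u : ℝ in atTop, 0 < u := eventually_gt_atTop 0
  have hall := hlog.eventually (hev1.and (hev2.and (hev3.and hev4)))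
  obtain ⟨N0, hN0⟩ := eventually_atTop.mp hall
  refine ⟨max N0 1, fun N hN p hp a ν hν hνs hνc Λ hΛ => ?_⟩
  obtain ⟨h1, h2, h3, h4⟩ := hN0 N (le_trans (le_max_left _ _) hN)
  have hN1 : 1 ≤ N := le_trans (le_max_right _ _) hN
  set u : ℝ := Real.log (N : ℝ) with hu
  have hNpos : (0 : ℝ) < N := by exact_mod_cast hN1
  have hNs : (N : ℝ) ^ (-s) = Real.exp (-(s * u)) := by
    rw [Real.rpow_def_of_pos hNpos, hu]; congr 1; ring
  -- the costs
  have hp0 : ∀ e a, 0 < p e a := fun e a => lt_of_lt_of_le hδ (hp.ge e a)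
  have hle1 : ∀ e, p e a ≤ 1 - δ := by
    intro e
    have hsum := hp.sum_eq e
    obtain ⟨a', ha'⟩ : ∃ a' : Fin q, a' ≠ a := by
      haveI : Nontrivial (Fin q) := Fin.nontrivial_iff_two_le.mpr hq
      exact exists_ne a
    have h5 : p e a + p e a' ≤ ∑ b, p e b := by
      have h6 := Finset.sum_le_sum_of_subset_of_nonneg (f := fun b => p e b)
        (Finset.subset_univ ({a, a'} : Finset (Fin q))) (fun b _ _ => (hp0 e b).le)
      rw [Finset.sum_pair ha'.symm] at h6
      exact h6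
    have := hp.ge e a'
    linarith
  have hcost : ∀ e, -Real.log (p e a) ≤ L := by
    intro e
    have := Real.log_le_log hδ (hp.ge e a)
    linarith
  have hcost0 : ∀ v u : Fin N, 0 ≤ cst p a v u :=
    cst_nonneg (fun e => (hp0 e a).le) (fun e => (hle1 e).trans (by linarith))
  have hcostL : ∀ v u : Fin N, cst p a v u ≤ L := cst_le hLpos.le hcost
  have hcostδ : ∀ v u : Fin N, v ≠ u → δ ≤ cst p a v u := by
    have hlog1 : ∀ e, δ ≤ -Real.log (p e a) := by
      intro e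
      have h5 := Real.log_le_log (hp0 e a) (hle1 e)
      have h6 := Real.log_le_sub_one_of_pos (show 0 < 1 - δ by linarith)
      linarith
    intro v u hvu
    unfold cst
    rcases lt_trichotomy v u with h | h | h
    · simp only [h, dite_true]; exact hlog1 _
    · exact absurd h hvu
    · simp only [h, not_lt.mpr h.le, dite_true, dite_false]; exact hlog1 _
  -- lower bound for the energy
  have hEnlow : lam ≤ En (cst p a) ν := by
    have h5 : ∀ v, (δ * (1 - Real.exp (-(s * u)))) * ν v ≤ ν v * Pot (cst p a) ν v := by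
      intro v
      have h6 : δ * (1 - ν v) ≤ Pot (cst p a) ν v := by
        unfold Pot
        have h7 : ∑ u, (δ * ν u - δ * (if u = v then ν u else 0)) ≤ ∑ u, ν u * cst p a v u := by
          refine Finset.sum_le_sum fun u _ => ?_
          by_cases huv : u = v
          · subst huv
            simp only [if_true, sub_self]
            exact mul_nonneg (hν u) (hcost0 u u)
          · simp only [huv, if_false, mul_zero, sub_zero]
            rw [mul_comm]
            exact mul_le_mul_of_nonneg_left (hcostδ v u (Ne.symm huv)) (hν u)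
        rw [Finset.sum_sub_distrib, ← Finset.mul_sum, ← Finset.mul_sum, hνs] at h7
        simp only [Finset.sum_ite_eq', Finset.mem_univ, if_true] at h7
        linarith
      have h8 : δ * (1 - Real.exp (-(s * u))) ≤ δ * (1 - ν v) := by
        have := hνc v
        rw [hNs] at this
        exact mul_le_mul_of_nonneg_left (by linarith) hδ.le
      calc _ = ν v * (δ * (1 - Real.exp (-(s * u)))) := by ring
        _ ≤ _ := mul_le_mul_of_nonneg_left (h8.trans h6) (hν v)
    have h9 := Finset.sum_le_sum (s := (univ : Finset (Fin N))) fun v _ => h5 v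
    rw [← Finset.mul_sum, hνs, ← En_eq] at h9
    refine le_trans ?_ h9
    rw [hlam]
    nlinarith
  have hΛ0 : 0 < Λ := lt_of_lt_of_le hlam0 (hEnlow.trans hΛ)
  have hΛl : lam ≤ Λ := hEnlow.trans hΛ
  obtain ⟨π, g1, g2, g3, g4⟩ := good_measure (l := cst p a) hLpos hε₁0 hε₁L (cst_symm p a) hcost0
    hcostL ν hν hνs
  have hEnL : En (cst p a) ν ≤ L := En_le hcostL hν hνs
  set m : ℝ := En (cst p a) ν with hm
  set κ : ℝ := C * Real.exp (-(s * u)) with hκ
  have hκv : ∀ v, π v ≤ κ := by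
    intro v
    refine (g3 v).trans ?_
    rw [hκ, ← hNs]
    exact mul_le_mul_of_nonneg_left (hνc v) hC0.le
  set X : ℝ := (1 - ε) * (2 * s * u) / Λ with hX
  have hX0 : 0 < X := by
    apply div_pos _ hΛ0
    apply mul_pos (by linarith)
    positivity
  set k : ℕ := ⌈X⌉₊ + b with hk
  have hceil1 : 1 ≤ ⌈X⌉₊ := by rw [Nat.one_le_ceil_iff]; exact hX0
  have hk2 : 2 ≤ k := by omega
  have hkle : (k : ℝ) ≤ X + 1 + b := by
    rw [hk]; push_cast
    have := Nat.ceil_lt_add_one hX0.le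
    linarith
  set T : ℝ := s * (1 - ε / 4) * u with hT
  have hT0 : 0 ≤ T := by
    apply mul_nonneg _ h4.le
    apply mul_nonneg hs.le
    linarith
  have hk1 : (0 : ℝ) ≤ (k : ℝ) - 1 := by
    have : (2 : ℝ) ≤ k := by exact_mod_cast hk2
    linarith
  have hm0 : 0 ≤ m := En_nonneg hcost0 hν
  have hKT : ((k : ℝ) - 1) * (m + 3 * ε₁ + ε₁) / 2 ≤ T := by
    have e1 : ((k : ℝ) - 1) * (m + 3 * ε₁ + ε₁) ≤ (X + b) * (m + 4 * ε₁) := by
      have : m + 3 * ε₁ + ε₁ = m + 4 * ε₁ := by ring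
      rw [this]
      exact mul_le_mul_of_nonneg_right (by linarith) (by linarith)
    have e2 : X * (m + 4 * ε₁) ≤ (1 - ε / 2) * (2 * s * u) := by
      have e3 : m + 4 * ε₁ ≤ (1 + ε / 2) * Λ := by nlinarith
      calc X * (m + 4 * ε₁) ≤ X * ((1 + ε / 2) * Λ) := mul_le_mul_of_nonneg_left e3 hX0.le
        _ = (1 - ε) * (1 + ε / 2) * (2 * s * u) := by
            rw [hX]; field_simp
        _ ≤ (1 - ε / 2) * (2 * s * u) := by
            apply mul_le_mul_of_nonneg_right _ (by positivity)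
            nlinarith
    have e4 : (b : ℝ) * (m + 4 * ε₁) ≤ b * (L + 4 * ε₁) :=
      mul_le_mul_of_nonneg_left (by linarith) (by positivity)
    rw [hT]
    nlinarith
  have hkX : (k : ℝ) ≤ 2 * s / lam * u + (b + 2) := by
    have : X ≤ 2 * s / lam * u := by
      rw [hX, div_le_iff₀ hΛ0]
      have e5 : 2 * s / lam * u * Λ = 2 * s * u * (Λ / lam) := by ring
      rw [e5]
      have e6 : 1 ≤ Λ / lam := by rw [le_div_iff₀ hlam0]; linarith
      have e7 : 0 < 2 * s * u := by positivity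
      nlinarith
    linarith
  have hz : (k : ℝ) ^ 2 * κ * Real.exp T ≤ ε / 32 := by
    have e8 : κ * Real.exp T = C * Real.exp (-(s * ε / 4 * u)) := by
      rw [hκ, hT, mul_assoc, ← Real.exp_add]
      congr 2
      ring
    calc (k : ℝ) ^ 2 * κ * Real.exp T = (k : ℝ) ^ 2 * (κ * Real.exp T) := by ring
      _ = C * ((k : ℝ) ^ 2 * Real.exp (-(s * ε / 4 * u))) := by rw [e8]; ring
      _ ≤ C * ((2 * s / lam * u + (b + 2)) ^ 2 * Real.exp (-(s * ε / 4 * u))) := by
          apply mul_le_mul_of_nonneg_left _ hC0.le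
          apply mul_le_mul_of_nonneg_right _ (Real.exp_pos _).le
          exact pow_le_pow_left₀ (by positivity) hkX 2
      _ ≤ C * (ε / (32 * C)) := mul_le_mul_of_nonneg_left h1.le hC0.le
      _ = ε / 32 := by field_simp
  have hz0 : 0 ≤ (k : ℝ) ^ 2 * κ * Real.exp T := by positivity
  have hkκ : (k : ℝ) ^ 2 * κ ≤ 1 / 4 := by
    have e9 : (k : ℝ) ^ 2 * κ ≤ (k : ℝ) ^ 2 * κ * Real.exp T :=
      le_mul_of_one_le_right (by positivity) (Real.one_le_exp hT0)
    linarith
  have hsec := second (p := p) (a := a) (π := π) (L := L) (M := m + 3 * ε₁) (ε := ε₁) (κ := κ)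
    (T := T) (b := b) (k := k) (fun e a => (hp0 e a).le) (fun e => hp0 e a) hp.sum_eq hLpos.le hcost
    g1 g2 hκv hε₁0 hk2 g4 hkκ hbL hT0 hKT
  have hexp : Real.exp ((k : ℝ) ^ 2 * κ * Real.exp T) - 1 ≤ 2 * (ε / 32) := by
    set z := (k : ℝ) ^ 2 * κ * Real.exp T with hzdef
    have hz1 : z ≤ 1 / 2 := by linarith
    have e10 : Real.exp z ≤ 1 / (1 - z) := by
      have := Real.one_sub_le_exp_neg z
      rw [Real.exp_neg] at this
      rw [le_div_iff₀ (by linarith)]
      have e11 := mul_le_mul_of_nonneg_left this (Real.exp_pos z).le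
      rw [mul_inv_cancel₀ (Real.exp_pos z).ne'] at e11
      linarith
    have e12 : 1 / (1 - z) ≤ 1 + 2 * z := by
      rw [div_le_iff₀ (by linarith)]
      nlinarith
    linarith
  refine le_trans ?_ (hsec.trans (pr_mono (fun e a => (hp0 e a).le) ?_))
  · linarith
  · rintro c ⟨S, hS, hmono⟩
    refine ⟨S, ?_, hmono⟩
    have e13 : ⌈X⌉₊ ≤ S.card := by omega
    have e14 : (⌈X⌉₊ : ℝ) ≤ S.card := by exact_mod_cast e13
    exact (Nat.le_ceil X).trans e14

end Pool.Agent.U180.SR
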