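import Mathlib
import Pool.Agent.U180.SR.Core

/-! # The growth rate -/

open Finset Filter Topology

set_option linter.unusedSectionVars false

namespace Pool.Agent.U180.SR

lemma card_inE {N : ℕ} (S : Finset (Fin N)) :
    2 * ((inE S).card : ℝ) = (S.card : ℝ) ^ 2 - S.card := by
  have h := sum_cst (N := N) (q := 1) (fun _ _ => Real.exp (-1)) 0 S
  simp only [Real.log_exp, neg_neg, Finset.sum_const, nsmul_eq_mul, mul_one] at h
  rw [← h]
  have e : ∀ v u : Fin N, cst (q := 1) (fun _ _ => Real.exp (-1)) 0 v u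
      = 1 - (if v = u then (1 : ℝ) else 0) := by
    intro v u
    unfold cst
    rcases lt_trichotomy v u with h | h | h
    · simp [h, h.ne]
    · simp [h]
    · simp [h, h.ne', not_lt.mpr h.le]
  simp_rw [e]
  simp only [Finset.sum_sub_distrib, Finset.sum_const, nsmul_eq_mul, mul_one]
  have e2 : ∑ v ∈ S, ∑ u ∈ S, (if v = u then (1 : ℝ) else 0) = S.card := by
    have : ∀ v ∈ S, ∑ u ∈ S, (if v = u then (1 : ℝ) else 0) = 1 := by
      intro v hv
      rw [Finset.sum_ite_eq S v (fun _ => (1 : ℝ)), if_pos hv]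
    rw [Finset.sum_congr rfl this, Finset.sum_const, nsmul_eq_mul, mul_one]
  rw [e2]; ring

lemma card_edge (N : ℕ) : 2 * (Fintype.card (Edge N) : ℝ) = (N : ℝ) ^ 2 - N := by
  have h := card_inE (univ : Finset (Fin N))
  have e : inE (univ : Finset (Fin N)) = univ := by
    ext e; simp [inE]
  rw [e, Finset.card_univ, Finset.card_univ, Fintype.card_fin] at h
  exact h

/-- **The largest monochromatic set, in terms of the mean cost.** -/
theorem mean_cost (q : ℕ) (hq : 2 ≤ q) {δ ε : ℝ} (hδ : 0 < δ) (hε : 0 < ε)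
    (hε1 : ε < 1) :
    ∃ N0 : ℕ, ∀ N ≥ N0, ∀ p : Edge N → Fin q → ℝ, IsLaw δ p →
      ∀ Λ : ℝ, ∑ e, ∑ a, -Real.log (p e a) ≤ q * Λ * Fintype.card (Edge N) →
        1 - ε ≤ Pr p (fun c => ∃ (a : Fin q) (S : Finset (Fin N)),
          (1 - ε) * (2 * Real.log N) / Λ ≤ (S.card : ℝ) ∧ MonoIn c a S) := by
  obtain ⟨N0, hN0⟩ := core q hq hδ one_pos hε hε1
  refine ⟨max N0 2, fun N hN p hp Λ hΛ => ?_⟩
  have hN2 : 2 ≤ N := le_trans (le_max_right _ _) hN
  have hNpos : (0 : ℝ) < N := by exact_mod_cast (by omega : 0 < N)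
  have hp0 : ∀ e a, 0 < p e a := fun e a => lt_of_lt_of_le hδ (hp.ge e a)
  have hp1 : ∀ e a, p e a ≤ 1 := by
    intro e a
    rw [← hp.sum_eq e]
    exact Finset.single_le_sum (f := fun a => p e a) (fun a _ => (hp0 e a).le) (Finset.mem_univ a)
  set ν : Fin N → ℝ := fun _ => (N : ℝ)⁻¹ with hν
  have hν0 : ∀ v, 0 ≤ ν v := fun v => by simp only [hν]; positivity
  have hνs : ∑ v, ν v = 1 := by
    simp only [hν, Finset.sum_const, Finset.card_univ, Fintype.card_fin, nsmul_eq_mul]
    field_simp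
  have hνc : ∀ v, ν v ≤ (N : ℝ) ^ (-(1 : ℝ)) := by
    intro v
    rw [Real.rpow_neg_one]
  have hE : ∀ a, En (cst p a) ν = (∑ e, -Real.log (p e a)) * (2 / (N : ℝ) ^ 2) := by
    intro a
    have h := sum_cst p a univ
    have e : inE (univ : Finset (Fin N)) = univ := by
      ext e; simp [inE]
    rw [e] at h
    have h2 : (∑ e, -Real.log (p e a)) * (2 / (N : ℝ) ^ 2)
        = (2 * ∑ e, -Real.log (p e a)) * (1 / (N : ℝ) ^ 2) := by ring
    rw [h2, ← h, Finset.sum_mul]
    unfold En
    refine Finset.sum_congr rfl fun v _ => ?_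
    rw [Finset.sum_mul]
    refine Finset.sum_congr rfl fun u _ => ?_
    simp only [hν]
    field_simp
  have hsum : ∑ a, En (cst p a) ν ≤ ∑ _a : Fin q, Λ := by
    simp_rw [hE]
    rw [← Finset.sum_mul, Finset.sum_comm, Finset.sum_const, Finset.card_univ, Fintype.card_fin,
      nsmul_eq_mul]
    have hpos : (0 : ℝ) < 2 / (N : ℝ) ^ 2 := by positivity
    have hc := card_edge N
    have hq0 : (0 : ℝ) < q := by exact_mod_cast (by omega : 0 < q)
    have hcardpos : (0 : ℝ) < Fintype.card (Edge N) := by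
      have : (2 : ℝ) ≤ N := by exact_mod_cast hN2
      nlinarith
    have hΛ0 : 0 ≤ Λ := by
      have h3 : 0 ≤ ∑ e, ∑ a, -Real.log (p e a) :=
        Finset.sum_nonneg fun e _ => Finset.sum_nonneg fun a _ => by
          have := Real.log_nonpos (hp0 e a).le (hp1 e a); linarith
      have h4 := h3.trans hΛ
      by_contra hcon
      push Not at hcon
      have : (q : ℝ) * Λ * Fintype.card (Edge N) < 0 :=
        mul_neg_of_neg_of_pos (mul_neg_of_pos_of_neg hq0 hcon) hcardpos
      linarith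
    calc (∑ e, ∑ a, -Real.log (p e a)) * (2 / (N : ℝ) ^ 2)
        ≤ (q * Λ * Fintype.card (Edge N)) * (2 / (N : ℝ) ^ 2) :=
          mul_le_mul_of_nonneg_right hΛ hpos.le
      _ = q * Λ * (((N : ℝ) ^ 2 - N) / (N : ℝ) ^ 2) := by rw [← hc]; ring
      _ ≤ q * Λ * 1 := by
          apply mul_le_mul_of_nonneg_left _ (by positivity)
          rw [div_le_one (by positivity)]
          linarith
      _ = q * Λ := mul_one _
  haveI : Nonempty (Fin q) := ⟨⟨0, by omega⟩⟩
  obtain ⟨a, _, ha⟩ := Finset.exists_le_of_sum_le (s := (univ : Finset (Fin q)))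
    Finset.univ_nonempty hsum
  have hcore := hN0 N (le_trans (le_max_left _ _) hN) p hp a ν hν0 hνs hνc Λ ha
  refine hcore.trans (pr_mono (fun e a => (hp0 e a).le) ?_)
  rintro c ⟨S, hS, hmono⟩
  refine ⟨a, S, ?_, hmono⟩
  simpa using hS

/-- a product of numbers which are at least `δ` -/
lemma prod_lower {ι : Type*} [DecidableEq ι] {δ : ℝ} (hδ : 0 < δ) (f : ι → ℝ) (s : Finset ι) :
    (∀ i ∈ s, δ ≤ f i) → s.Nonempty →
      δ ^ (s.card - 1) * (∑ i ∈ s, f i - (s.card - 1) * δ) ≤ ∏ i ∈ s, f i := by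
  induction s using Finset.induction_on with
  | empty => intro _ h; exact absurd h (by simp)
  | insert j s hj ih =>
    intro h _
    by_cases hs : s.Nonempty
    · have ih' := ih (fun i hi => h i (Finset.mem_insert_of_mem hi)) hs
      have hjδ := h j (Finset.mem_insert_self j s)
      rw [Finset.prod_insert hj, Finset.sum_insert hj, Finset.card_insert_of_notMem hj]
      have hcard : 1 ≤ s.card := Finset.card_pos.mpr hs
      have e1 : s.card + 1 - 1 = (s.card - 1) + 1 := by omega
      rw [e1, pow_succ]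
      push_cast
      set y : ℝ := ∑ i ∈ s, f i - ((s.card : ℝ) - 1) * δ with hy
      have hyδ : δ ≤ y := by
        have h5 : ∑ _i ∈ s, δ ≤ ∑ i ∈ s, f i :=
          Finset.sum_le_sum fun i hi => h i (Finset.mem_insert_of_mem hi)
        rw [Finset.sum_const, nsmul_eq_mul] at h5
        rw [hy]
        linarith
      have hP : 0 < δ ^ (s.card - 1) := by positivity
      calc δ ^ (s.card - 1) * δ * (f j + ∑ i ∈ s, f i - ((s.card : ℝ) + 1 - 1) * δ)
          = δ ^ (s.card - 1) * (δ * (f j + y - δ)) := by rw [hy]; ring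
        _ ≤ δ ^ (s.card - 1) * (f j * y) := by
            apply mul_le_mul_of_nonneg_left _ hP.le
            nlinarith [mul_nonneg (sub_nonneg.mpr hjδ) (sub_nonneg.mpr hyδ)]
        _ = f j * (δ ^ (s.card - 1) * y) := by ring
        _ ≤ f j * ∏ i ∈ s, f i := mul_le_mul_of_nonneg_left ih' (by linarith)
    · rw [Finset.not_nonempty_iff_eq_empty] at hs
      subst hs
      simp

lemma law_cost {N q : ℕ} (hq : 1 ≤ q) {δ : ℝ} (hδ : 0 < δ) {p : Edge N → Fin q → ℝ}
    (hp : IsLaw δ p) (e : Edge N) : ∑ a, -Real.log (p e a) ≤ q * maxCost q δ := by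
  have hp0 : ∀ a, 0 < p e a := fun a => lt_of_lt_of_le hδ (hp.ge e a)
  have hq0 : (0 : ℝ) < q := by exact_mod_cast hq
  haveI : Nonempty (Fin q) := ⟨⟨0, by omega⟩⟩
  have h := prod_lower hδ (fun a => p e a) univ (fun a _ => hp.ge e a) Finset.univ_nonempty
  rw [Finset.card_univ, Fintype.card_fin, hp.sum_eq e] at h
  have hpos : 0 < 1 - ((q : ℝ) - 1) * δ := by
    have h5 : ∑ _i : Fin q, δ ≤ ∑ a, p e a := Finset.sum_le_sum fun a _ => hp.ge e a
    rw [hp.sum_eq e, Finset.sum_const, Finset.card_univ, Fintype.card_fin, nsmul_eq_mul] at h5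
    linarith
  have h6 := Real.log_le_log (by positivity) h
  rw [Real.log_mul (by positivity) hpos.ne', Real.log_pow, Real.log_prod (fun a _ => (hp0 a).ne')]
    at h6
  rw [Nat.cast_sub hq] at h6
  rw [Finset.sum_neg_distrib]
  unfold maxCost
  rw [mul_div_cancel₀ _ hq0.ne']
  push_cast at h6
  linarith

lemma maxCost_half (δ : ℝ) (hδ : 0 < δ) (hδ1 : δ < 1) :
    maxCost 2 δ = 1 / 2 * Real.log (1 / (δ * (1 - δ))) := by
  unfold maxCost
  rw [one_div (δ * (1 - δ)), Real.log_inv, Real.log_mul hδ.ne' (by linarith)]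
  push_cast
  have : (1 : ℝ) - (2 - 1) * δ = 1 - δ := by ring
  rw [this]
  ring

lemma maxCost_uniform {q : ℕ} (hq : 1 ≤ q) : maxCost q (1 / q) = Real.log q := by
  have hq0 : (0 : ℝ) < q := by exact_mod_cast hq
  unfold maxCost
  have : (1 : ℝ) - ((q : ℝ) - 1) * (1 / q) = 1 / q := by
    field_simp
    ring
  rw [this, one_div, Real.log_inv]
  field_simp
  ring

lemma monoIn_subset {N q : ℕ} {c : Edge N → Fin q} {a : Fin q} {S T : Finset (Fin N)} (h : S ⊆ T)
    (hT : MonoIn c a T) : MonoIn c a S := fun e h1 h2 => hT e (h h1) (h h2)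

/-- the upper bound, for all large `N` -/
theorem upper (q : ℕ) (hq : 2 ≤ q) {δ η θ : ℝ} (hδ : 0 < δ) (hδq : δ ≤ 1 / q) (hη : 0 < η)
    (hθ : θ < 1) :
    ∃ K : ℕ, ∀ k ≥ K, ∀ N : ℕ, Real.exp ((maxCost q δ / 2 + η) * k) ≤ N → N ∈ NoisySet q δ θ k := by
  have hq0 : (0 : ℝ) < q := by exact_mod_cast (by omega : 0 < q)
  have hq2 : (2 : ℝ) ≤ q := by exact_mod_cast hq
  set Λ := maxCost q δ with hΛ
  have hΛ0 : 0 < Λ := by
    rw [hΛ]; unfold maxCost
    apply div_pos _ hq0
    have hδ1 : δ < 1 := by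
      have : (1 : ℝ) / q ≤ 1 / 2 := one_div_le_one_div_of_le (by norm_num) hq2
      linarith
    have h1 : Real.log δ < 0 := Real.log_neg hδ hδ1
    have h2 : Real.log (1 - ((q : ℝ) - 1) * δ) ≤ 0 := by
      apply Real.log_nonpos
      · have : ((q : ℝ) - 1) * δ ≤ ((q : ℝ) - 1) * (1 / q) :=
          mul_le_mul_of_nonneg_left hδq (by linarith)
        have h3 : ((q : ℝ) - 1) * (1 / q) ≤ 1 := by
          rw [mul_one_div, div_le_one hq0]; linarith
        linarith
      · have : 0 ≤ ((q : ℝ) - 1) * δ := mul_nonneg (by linarith) hδ.le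
        linarith
    nlinarith
  set ε : ℝ := min (min (1 / 2) (1 - θ)) (2 * η / (Λ + 2 * η)) with hε
  have hε0 : 0 < ε := lt_min (lt_min (by norm_num) (by linarith)) (by positivity)
  have hεh : ε ≤ 1 / 2 := (min_le_left _ _).trans (min_le_left _ _)
  have hεθ : ε ≤ 1 - θ := (min_le_left _ _).trans (min_le_right _ _)
  have hε2 : ε * (Λ + 2 * η) ≤ 2 * η := by
    have := min_le_right (min (1 / 2) (1 - θ)) (2 * η / (Λ + 2 * η))
    calc ε * (Λ + 2 * η) ≤ 2 * η / (Λ + 2 * η) * (Λ + 2 * η) :=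
          mul_le_mul_of_nonneg_right this (by positivity)
      _ = 2 * η := by field_simp
  obtain ⟨N0, hN0⟩ := mean_cost q hq hδ hε0 (by linarith)
  -- `K` such that the exponential is at least `N0`
  have hc : 0 < Λ / 2 + η := by positivity
  obtain ⟨K, hK⟩ := exists_nat_ge ((N0 : ℝ) / (Λ / 2 + η))
  refine ⟨K, fun k hk N hN p hp => ?_⟩
  have hkK : (N0 : ℝ) ≤ (Λ / 2 + η) * k := by
    rw [div_le_iff₀ hc] at hK
    have : (K : ℝ) ≤ k := by exact_mod_cast hk
    nlinarith
  have hNN0 : N0 ≤ N := by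
    have h1 := Real.add_one_le_exp ((Λ / 2 + η) * k)
    have : (N0 : ℝ) ≤ N := by linarith
    exact_mod_cast this
  have hNpos : (0 : ℝ) < N := lt_of_lt_of_le (Real.exp_pos _) hN
  have hp0 : ∀ e a, 0 < p e a := fun e a => lt_of_lt_of_le hδ (hp.ge e a)
  have hcost : ∑ e, ∑ a, -Real.log (p e a) ≤ q * Λ * Fintype.card (Edge N) := by
    calc ∑ e, ∑ a, -Real.log (p e a) ≤ ∑ _e : Edge N, q * Λ :=
          Finset.sum_le_sum fun e _ => law_cost (by omega) hδ hp e
      _ = q * Λ * Fintype.card (Edge N) := by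
          rw [Finset.sum_const, Finset.card_univ, nsmul_eq_mul]; ring
  have hmain := hN0 N hNN0 p hp Λ hcost
  refine le_trans (by linarith : θ ≤ 1 - ε) (hmain.trans
    (pr_mono (fun e a => (hp0 e a).le) ?_))
  rintro c ⟨a, S, hS, hmono⟩
  have hlogN : (Λ / 2 + η) * k ≤ Real.log N := by
    have := Real.log_le_log (Real.exp_pos _) hN
    rwa [Real.log_exp] at this
  have hk0 : (0 : ℝ) ≤ k := by positivity
  have hkS : (k : ℝ) ≤ S.card := by
    refine le_trans ?_ hS
    rw [le_div_iff₀ hΛ0]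
    have h1 : (k : ℝ) * Λ ≤ (1 - ε) * ((Λ + 2 * η) * k) := by
      have : Λ ≤ (1 - ε) * (Λ + 2 * η) := by nlinarith
      nlinarith
    have h2 : (1 - ε) * ((Λ + 2 * η) * k) ≤ (1 - ε) * (2 * Real.log N) := by
      apply mul_le_mul_of_nonneg_left _ (by linarith)
      linarith
    linarith
  have hkS' : k ≤ S.card := by exact_mod_cast hkS
  obtain ⟨T, hTS, hT⟩ := Finset.exists_subset_card_eq hkS'
  exact ⟨a, T, hT, monoIn_subset hTS hmono⟩

open Classical in
/-- the union bound for uniform colours -/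
theorem lower_aux (q : ℕ) (hq : 1 ≤ q) (N k : ℕ) :
    Pr (fun (_ : Edge N) (_ : Fin q) => (1 : ℝ) / q)
      (fun c => ∃ (a : Fin q) (S : Finset (Fin N)), S.card = k ∧ MonoIn c a S)
      ≤ q * ((N.choose k : ℝ) * Real.exp (-(((k : ℝ) ^ 2 - k) / 2 * Real.log q))) := by
  have hq0 : (0 : ℝ) < q := by exact_mod_cast hq
  set p : Edge N → Fin q → ℝ := fun _ _ => (1 : ℝ) / q with hp
  have hps : ∀ e, ∑ a, p e a = 1 := by
    intro e
    simp only [hp, Finset.sum_const, Finset.card_univ, Fintype.card_fin, nsmul_eq_mul]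
    field_simp
  have h1 : Pr p (fun c => ∃ (a : Fin q) (S : Finset (Fin N)), S.card = k ∧ MonoIn c a S)
      ≤ ∑ a : Fin q, ∑ S ∈ Finset.powersetCard k (univ : Finset (Fin N)),
        ∑ c : Edge N → Fin q, (∏ e, p e (c e)) * (if MonoIn c a S then (1 : ℝ) else 0) := by
    unfold Pr
    have h2 : ∀ c : Edge N → Fin q, (∏ e, p e (c e)) *
        (if ∃ (a : Fin q) (S : Finset (Fin N)), S.card = k ∧ MonoIn c a S then (1 : ℝ) else 0)
        ≤ ∑ a : Fin q, ∑ S ∈ Finset.powersetCard k (univ : Finset (Fin N)),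
          (∏ e, p e (c e)) * (if MonoIn c a S then (1 : ℝ) else 0) := by
      intro c
      have hP : 0 ≤ ∏ e, p e (c e) := Finset.prod_nonneg fun e _ => by simp only [hp]; positivity
      have hnn : ∀ (a : Fin q) (S : Finset (Fin N)),
          0 ≤ (∏ e, p e (c e)) * (if MonoIn c a S then (1 : ℝ) else 0) := fun a S =>
        mul_nonneg hP (by split_ifs <;> norm_num)
      by_cases hex : ∃ (a : Fin q) (S : Finset (Fin N)), S.card = k ∧ MonoIn c a S
      · rw [if_pos hex]
        obtain ⟨a, S, hS, hm⟩ := hex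
        have h3 : (∏ e, p e (c e)) * 1 ≤ ∑ S ∈ Finset.powersetCard k (univ : Finset (Fin N)),
          (∏ e, p e (c e)) * (if MonoIn c a S then (1 : ℝ) else 0) := by
          have := Finset.single_le_sum (f := fun S => (∏ e, p e (c e)) *
            (if MonoIn c a S then (1 : ℝ) else 0))
            (s := Finset.powersetCard k (univ : Finset (Fin N))) (fun S _ => hnn a S)
            (Finset.mem_powersetCard.mpr ⟨Finset.subset_univ S, hS⟩)
          simpa [hm] using this
        exact h3.trans (Finset.single_le_sum (f := fun a =>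
          ∑ S ∈ Finset.powersetCard k (univ : Finset (Fin N)),
          (∏ e, p e (c e)) * (if MonoIn c a S then (1 : ℝ) else 0))
          (fun a _ => Finset.sum_nonneg fun S _ => hnn a S) (Finset.mem_univ a))
      · rw [if_neg hex, mul_zero]
        exact Finset.sum_nonneg fun a _ => Finset.sum_nonneg fun S _ => hnn a S
    calc _ ≤ ∑ c : Edge N → Fin q, ∑ a : Fin q,
          ∑ S ∈ Finset.powersetCard k (univ : Finset (Fin N)),
          (∏ e, p e (c e)) * (if MonoIn c a S then (1 : ℝ) else 0) := by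
          refine Finset.sum_le_sum fun c _ => ?_
          refine le_trans (le_of_eq ?_) (h2 c)
          congr 1
          by_cases hex : ∃ (a : Fin q) (S : Finset (Fin N)), S.card = k ∧ MonoIn c a S
          · rw [if_pos hex, if_pos hex]
          · rw [if_neg hex, if_neg hex]
      _ = _ := by
          rw [Finset.sum_comm]
          refine Finset.sum_congr rfl fun a _ => ?_
          rw [Finset.sum_comm]
  refine h1.trans ?_
  have h4 : ∀ a : Fin q, ∀ S ∈ Finset.powersetCard k (univ : Finset (Fin N)),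
      ∑ c : Edge N → Fin q, (∏ e, p e (c e)) * (if MonoIn c a S then (1 : ℝ) else 0)
        = Real.exp (-(((k : ℝ) ^ 2 - k) / 2 * Real.log q)) := by
    intro a S hS
    rw [pr_one hps a S]
    have hSk : S.card = k := (Finset.mem_powersetCard.mp hS).2
    simp only [hp]
    rw [Finset.prod_const]
    have hc := card_inE S
    rw [hSk] at hc
    have e1 : (1 : ℝ) / q = Real.exp (-Real.log q) := by
      rw [Real.exp_neg, Real.exp_log hq0, one_div]
    rw [e1, ← Real.exp_nat_mul]
    congr 1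
    have : ((inE S).card : ℝ) = ((k : ℝ) ^ 2 - k) / 2 := by linarith
    rw [this]; ring
  rw [Finset.sum_congr rfl fun a _ => Finset.sum_congr rfl (h4 a)]
  simp only [Finset.sum_const, Finset.card_powersetCard, Finset.card_univ, Fintype.card_fin,
    nsmul_eq_mul]
  exact le_rfl

/-- the lower bound -/
theorem lower (q : ℕ) (hq : 2 ≤ q) {δ θ : ℝ} (hδq : δ ≤ 1 / q) (hθ : 0 < θ) :
    ∃ K : ℕ, ∀ k ≥ K, ∀ N ∈ NoisySet q δ θ k, Real.exp (Real.log q / 2 * k) < N := by
  have hq0 : (0 : ℝ) < q := by exact_mod_cast (by omega : 0 < q)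
  have hq2 : (2 : ℝ) ≤ q := by exact_mod_cast hq
  have hfac : ∀ᶠ k : ℕ in atTop, (q : ℝ) * (q : ℝ) ^ k < θ * (k.factorial : ℝ) := by
    have h := FloorSemiring.tendsto_pow_div_factorial_atTop (q : ℝ)
    have h2 := (tendsto_order.1 h).2 (θ / q) (by positivity)
    filter_upwards [h2] with k hk
    rw [div_lt_iff₀ (by positivity)] at hk
    have h3 : (θ / (q : ℝ) * (k.factorial : ℝ)) * q = θ * k.factorial := by
      field_simp
    nlinarith
  obtain ⟨K, hK⟩ := eventually_atTop.mp hfac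
  refine ⟨K, fun k hk N hN => ?_⟩
  by_contra hcon
  push Not at hcon
  have hlaw : IsLaw δ (fun (_ : Edge N) (_ : Fin q) => (1 : ℝ) / q) := by
    constructor
    · intro e a; exact hδq
    · intro e
      simp only [Finset.sum_const, Finset.card_univ, Fintype.card_fin, nsmul_eq_mul]
      field_simp
  have h1 := (hN _ hlaw).trans (lower_aux q (by omega) N k)
  have hch : (N.choose k : ℝ) ≤ (N : ℝ) ^ k / k.factorial := Nat.choose_le_pow_div k N
  have hNk : (N : ℝ) ^ k ≤ Real.exp (Real.log q / 2 * k * k) := by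
    calc (N : ℝ) ^ k ≤ (Real.exp (Real.log q / 2 * k)) ^ k :=
          pow_le_pow_left₀ (by positivity) hcon k
      _ = _ := by rw [← Real.exp_nat_mul]; congr 1; ring
  have hfk := hK k hk
  have hfpos : (0 : ℝ) < k.factorial := by exact_mod_cast Nat.factorial_pos k
  have h2 : (q : ℝ) * ((N.choose k : ℝ) * Real.exp (-(((k : ℝ) ^ 2 - k) / 2 * Real.log q)))
      ≤ q * (q : ℝ) ^ k / k.factorial := by
    have e1 : (N.choose k : ℝ) * Real.exp (-(((k : ℝ) ^ 2 - k) / 2 * Real.log q))
        ≤ (Real.exp (Real.log q / 2 * k * k) / k.factorial) *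
          Real.exp (-(((k : ℝ) ^ 2 - k) / 2 * Real.log q)) := by
      apply mul_le_mul_of_nonneg_right _ (Real.exp_pos _).le
      exact hch.trans (div_le_div_of_nonneg_right hNk hfpos.le)
    have e2 : Real.exp (Real.log q / 2 * k * k) / k.factorial *
          Real.exp (-(((k : ℝ) ^ 2 - k) / 2 * Real.log q))
        = Real.exp (Real.log q / 2 * k) / k.factorial := by
      rw [div_mul_eq_mul_div, ← Real.exp_add]
      congr 2
      ring
    have e3 : Real.exp (Real.log q / 2 * k) ≤ (q : ℝ) ^ k := by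
      have : (q : ℝ) ^ k = Real.exp (k * Real.log q) := by
        rw [mul_comm, Real.exp_mul, Real.exp_log hq0, Real.rpow_natCast]
      rw [this]
      apply Real.exp_le_exp.mpr
      have hlq : 0 ≤ Real.log q := Real.log_nonneg (by linarith)
      have hk0 : (0 : ℝ) ≤ k := by positivity
      nlinarith [mul_nonneg hlq hk0]
    calc _ ≤ (q : ℝ) * (Real.exp (Real.log q / 2 * k) / k.factorial) := by
          apply mul_le_mul_of_nonneg_left _ hq0.le
          rw [← e2]; exact e1
      _ ≤ (q : ℝ) * ((q : ℝ) ^ k / k.factorial) := by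
          apply mul_le_mul_of_nonneg_left _ hq0.le
          exact div_le_div_of_nonneg_right e3 hfpos.le
      _ = _ := by ring
  have h3 : (q : ℝ) * (q : ℝ) ^ k / k.factorial < θ := by
    rw [div_lt_iff₀ hfpos]
    linarith
  linarith

/-- the probability is at most one, and the sure event has probability one -/
lemma pr_sure {N q : ℕ} {p : Edge N → Fin q → ℝ} (hp : ∀ e, ∑ a, p e a = 1)
    {P : (Edge N → Fin q) → Prop} (h : ∀ c, P c) : Pr p P = 1 := by
  unfold Pr
  refine (Finset.sum_congr rfl fun c _ => ?_).trans (sum_prod_one p hp)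
  rw [if_pos (h c), mul_one]

lemma maxCost_tendsto {q : ℕ} (hq : 1 ≤ q) :
    Tendsto (maxCost q) (𝓝 (1 / q)) (𝓝 (Real.log q)) := by
  have hq0 : (0 : ℝ) < q := by exact_mod_cast hq
  have e : (1 : ℝ) - ((q : ℝ) - 1) * (1 / q) = 1 / q := by
    field_simp
    ring
  have hc : ContinuousAt (maxCost q) (1 / q) := by
    unfold maxCost
    apply ContinuousAt.div_const
    apply ContinuousAt.neg
    apply ContinuousAt.add
    · exact continuousAt_const.mul (Real.continuousAt_log (by positivity))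
    · apply ContinuousAt.log
      · fun_prop
      · rw [e]; positivity
  have h := hc.tendsto
  rw [maxCost_uniform hq] at h
  exact h

end Pool.Agent.U180.SR
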